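import Pool.Agent.H38.RX.Fin
import Pool.Agent.H38.PL3.Main3
import Pool.Agent.H16.RB2.Bjs2

/-!
# RX Main: the rank bound (Theorem C) and the small orders

Theorem C (helper16, helper38, helper88): `p` odd, `|p G| = p ^ κ`: `2 (p - 1) κ ≤ p r - 2`.  Otherwise `2 (p - 1) κ ≥ p r - 1`; with `a = r - κ ≥ 1` (`bjs2`) the
properties K0 and K1 hold (`sl_kills2`, `quot_kills` of Pool/Agent/H16/RB2), so `Ext p r κ a f`: impossible (`Ext.false`).
-/

set_option autoImplicit false

namespace Pool.Agent.H38.RX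

open Finset Pool.Agent.H16.RB Pool.Agent.H88.Pl Pool.Agent.H16.RB2
open scoped Classical

private theorem cost0 {q κ a : ℕ} (h : (q + 1) * (κ + a) ≤ 2 * q * κ + 1) :
    2 * (κ * q + (q + 1) * (a * q)) < (κ + a) * (q + 1) * q + 2 * (q + 1) := by
  have h1 : q * ((q + 1) * (κ + a)) ≤ q * (2 * q * κ + 1) := Nat.mul_le_mul_left _ h
  nlinarith

private theorem cost1 {q κ a : ℕ} (hq : 1 ≤ q) (h : (q + 1) * (κ + 1 + a) ≤ 2 * q * (κ + 1) + 1) :
    2 * (κ * q + (q + 1) * (a * q + 1)) < (κ + 1 + a) * (q + 1) * q + 2 * (q + 1) := by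
  have h1 : q * ((q + 1) * (κ + 1 + a)) ≤ q * (2 * q * (κ + 1) + 1) := Nat.mul_le_mul_left _ h
  nlinarith

theorem rank_C0 {p r κ : ℕ} [Fact p.Prime] (hp : p ≠ 2) {H K : Type*} [AddCommGroup H]
    [AddCommGroup K] [Fintype H] [Fintype K] (hH : Fintype.card H = p ^ r)
    (hK : Fintype.card K = p ^ r) (f : H → K) (hf : IsPlanar f) (hr : 1 ≤ r)
    (hκ : Nat.card (Set.range fun g : H × K => p • g) = p ^ κ) :
    2 * (p - 1) * κ + 2 ≤ p * r := by
  have hpp : p.Prime := Fact.out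
  have hp3 : 3 ≤ p := by
    have h2 := hpp.two_le
    omega
  by_contra hcon
  push Not at hcon
  have hkr := bjs2 hp hH hK f hf hr hκ
  obtain ⟨a, hra⟩ : ∃ a, r = κ + a := ⟨r - κ, by omega⟩
  have ha : 1 ≤ a := by omega
  have hG : Nat.card (H × K) = p ^ (2 * r) := by
    rw [Nat.card_prod, Nat.card_eq_fintype_card, Nat.card_eq_fintype_card, hH, hK, ← pow_add]
    congr 1
    ring
  obtain ⟨q, hq⟩ : ∃ q, p = q + 1 := ⟨p - 1, by omega⟩
  have hq1 : p - 1 = q := by omega
  rw [hq1] at hcon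
  have hcost : (q + 1) * (κ + a) ≤ 2 * q * κ + 1 := by
    rw [← hq, ← hra]
    omega
  have E : Ext p r κ a f := by
    refine ⟨hp, hH, hK, hf, hκ, hra, ha, ?_, ?_⟩
    · intro v hv
      obtain ⟨g, hg⟩ := (mem_filter.1 hv).2
      rw [← hg]
      refine sl_kills2 hp hH hK f hf hκ ?_ g
      rw [hq1, hra]
      have h1 := cost0 hcost
      rw [← hq] at h1
      exact h1
    · intro v s hv hs h0
      obtain ⟨g, hg⟩ := (mem_filter.1 hv).2
      obtain ⟨hs0, hs1⟩ := (mem_filter.1 hs).2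
      rw [line_set f hg hs0]
      have hT : Nat.card (AddSubgroup.zmultiples s) = p ^ 1 := by
        rw [pow_one, Nat.card_zmultiples]
        exact addOrderOf_eq_prime hs0 h0
      have hle : AddSubgroup.zmultiples s ≤ (nsmulAddMonoidHom (α := H × K) p).range := by
        rw [AddSubgroup.zmultiples_le]
        obtain ⟨g', hg'⟩ := hs1
        exact ⟨g', hg'⟩
      have hc := (card_quot hG hκ (AddSubgroup.zmultiples s) hle hT).2
      have hκ1 : 1 ≤ κ := by
        rcases Nat.eq_zero_or_pos κ with h | h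
        · exfalso
          rw [h, pow_zero, pow_one] at hc
          have h2 := Nat.le_of_dvd one_pos (Dvd.intro_left _ hc)
          omega
        · exact h
      obtain ⟨k, rfl⟩ : ∃ k, κ = k + 1 := ⟨κ - 1, by omega⟩
      have hc' : Nat.card (Set.range fun q : (H × K) ⧸ AddSubgroup.zmultiples s => p • q) =
          p ^ k := by
        rw [pow_one, pow_succ] at hc
        exact Nat.eq_of_mul_eq_mul_right hpp.pos hc
      refine quot_kills hp hH hK f hf _ hc' ?_ g
      rw [hq1, hra]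
      have h1 := cost1 (by omega) hcost
      rw [← hq] at h1
      exact h1
  exact E.false

/-- Theorem C in terms of `|p G|` -/
theorem rank_C {p r κ : ℕ} [Fact p.Prime] (hp : p ≠ 2) {H K : Type*} [AddCommGroup H]
    [AddCommGroup K] (hH : Nat.card H = p ^ r) (hK : Nat.card K = p ^ r) (f : H → K)
    (hf : IsPlanar f) (hr : 1 ≤ r)
    (hκ : Nat.card (Set.range fun g : H × K => p • g) = p ^ κ) :
    2 * (p - 1) * κ + 2 ≤ p * r := by
  have hpp : p.Prime := Fact.out
  have : Finite H := Nat.finite_of_card_ne_zero (by rw [hH]; exact (pow_pos hpp.pos _).ne')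
  have : Finite K := Nat.finite_of_card_ne_zero (by rw [hK]; exact (pow_pos hpp.pos _).ne')
  have := Fintype.ofFinite H
  have := Fintype.ofFinite K
  exact rank_C0 hp (by rw [← Nat.card_eq_fintype_card, hH])
    (by rw [← Nat.card_eq_fintype_card, hK]) f hf hr hκ

/-- Theorem C in terms of the rank `R` of `H × K` -/
theorem rank_form_C {p r R : ℕ} [Fact p.Prime] (hp : p ≠ 2) {H K : Type*} [AddCommGroup H]
    [AddCommGroup K] (hH : Nat.card H = p ^ r) (hK : Nat.card K = p ^ r) (f : H → K)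
    (hf : IsPlanar f) (hr : 1 ≤ r)
    (hR : Nat.card {g : H × K // p • g = 0} = p ^ R) :
    (3 * p - 4) * r + 2 ≤ 2 * (p - 1) * R := by
  have hpp : p.Prime := Fact.out
  have hp3 : 3 ≤ p := by
    have h2 := hpp.two_le
    omega
  have hG : Nat.card (H × K) = p ^ (2 * r) := by
    rw [Nat.card_prod, hH, hK, ← pow_add]
    congr 1
    ring
  have : Finite H := Nat.finite_of_card_ne_zero (by rw [hH]; exact (pow_pos hpp.pos _).ne')
  have : Finite K := Nat.finite_of_card_ne_zero (by rw [hK]; exact (pow_pos hpp.pos _).ne')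
  obtain ⟨κ, hκ⟩ := card_range_pow hG
  have h1 := rank_C hp hH hK f hf hr hκ
  set φ : H × K →+ H × K := nsmulAddMonoidHom p with hφ
  have h2 : Nat.card φ.ker * φ.ker.index = Nat.card (H × K) := AddSubgroup.card_mul_index _
  have h3 : φ.ker.index = p ^ κ := by
    rw [AddSubgroup.index_ker, ← hκ]
    rfl
  have h4 : Nat.card φ.ker = p ^ R := hR
  rw [h3, h4, hG, ← pow_add] at h2
  have h5 : R + κ = 2 * r := Nat.pow_right_injective hpp.two_le h2
  obtain ⟨q, rfl⟩ : ∃ q, p = q + 3 := ⟨p - 3, by omega⟩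
  rw [show 3 * (q + 3) - 4 = 3 * q + 5 by omega, show q + 3 - 1 = q + 2 from rfl]
  rw [show q + 3 - 1 = q + 2 from rfl] at h1
  have h6 : 2 * (q + 2) * R + 2 * (q + 2) * κ = 2 * (q + 2) * (2 * r) := by
    rw [← mul_add, h5]
  nlinarith

/-- Q1 for `r ∈ {3, 4}` and all primes, `r = 5` and `p ≥ 5`, `r = 6` and `p ≥ 7`:
every element of `H × K` is killed by `p` -/
theorem q1_small2 {p r : ℕ} [Fact p.Prime] (h : r = 4 ∨ (5 ≤ p ∧ r = 5))
    {H K : Type*} [AddCommGroup H] [AddCommGroup K] (hH : Nat.card H = p ^ r)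
    (hK : Nat.card K = p ^ r) (f : H → K) (hf : IsPlanar f) (g : H × K) : p • g = 0 := by
  have hpp : p.Prime := Fact.out
  have : Finite H := Nat.finite_of_card_ne_zero (by rw [hH]; exact (pow_pos hpp.pos _).ne')
  have : Finite K := Nat.finite_of_card_ne_zero (by rw [hK]; exact (pow_pos hpp.pos _).ne')
  by_contra hg
  have hG : Nat.card (H × K) = p ^ (2 * r) := by
    rw [Nat.card_prod, hH, hK, ← pow_add]
    congr 1
    ring
  obtain ⟨e, -, he⟩ := (Nat.dvd_prime_pow hpp).1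
    (show AddMonoid.exponent (H × K) ∣ p ^ (2 * r) by
      rw [← hG]; exact AddGroup.exponent_dvd_nat_card)
  have he2 : 2 ≤ e := by
    by_contra hlt
    apply hg
    have h1 : AddMonoid.exponent (H × K) ∣ p := by
      rw [he]
      calc p ^ e ∣ p ^ 1 := pow_dvd_pow p (by omega)
        _ = p := pow_one p
    obtain ⟨c, hc⟩ := h1
    rw [hc, mul_comm, mul_smul, AddMonoid.exponent_nsmul_eq_zero, smul_zero]
  obtain ⟨κ, hκ⟩ := card_range_pow hG
  have hB := Pool.Agent.H38.PL3.main_C (show 3 ≤ r by omega) he2 hH hK f hf he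
  have hsub : (Set.range fun g : H × K => p ^ (e - 1) • g) ⊆ Set.range fun g : H × K => p • g := by
    rintro _ ⟨x, rfl⟩
    refine ⟨p ^ (e - 2) • x, ?_⟩
    show p • (p ^ (e - 2) • x) = p ^ (e - 1) • x
    rw [smul_smul, ← pow_succ']
    congr 2
    omega
  have hle := Nat.card_mono (Set.toFinite _) hsub
  have hκ3 : 3 ≤ κ := by
    rw [hκ] at hle
    exact (Nat.pow_le_pow_iff_right hpp.one_lt).1 (hB.trans hle)
  by_cases hp2 : p = 2
  · subst hp2
    have hr4 : r = 4 := by omega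
    subst hr4
    exact Pool.Agent.H38.PL3.no_two (by norm_num) hH hf
  · have hp3 : 3 ≤ p := by
      have h2 := hpp.two_le
      omega
    have hrb := rank_C hp2 hH hK f hf (by omega) hκ
    obtain ⟨q, rfl⟩ : ∃ q, p = q + 3 := ⟨p - 3, by omega⟩
    rw [show q + 3 - 1 = q + 2 from rfl] at hrb
    have h1 : 2 * (q + 2) * 3 ≤ 2 * (q + 2) * κ := Nat.mul_le_mul_left _ hκ3
    rcases h with rfl | ⟨h5, rfl⟩
    · omega
    · omega

theorem small_orders2 {p r : ℕ} [Fact p.Prime]
    (h : r = 3 ∨ r = 4 ∨ (5 ≤ p ∧ r = 5) ∨ (7 ≤ p ∧ r = 6))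
    {H K : Type*} [AddCommGroup H] [AddCommGroup K] (hH : Nat.card H = p ^ r)
    (hK : Nat.card K = p ^ r) (f : H → K) (hf : IsPlanar f) :
    Nonempty (H ≃+ (Fin r → ZMod p)) ∧ Nonempty (K ≃+ (Fin r → ZMod p)) := by
  rcases h with h | h | h | h
  · exact small_orders (Or.inl h) hH hK f hf
  · have h1 : ∀ g : H × K, p • g = 0 := fun g => q1_small2 (Or.inl h) hH hK f hf g
    constructor
    · exact equiv_of_smul hH fun x => (Prod.ext_iff.1 (h1 (x, 0))).1
    · exact equiv_of_smul hK fun y => (Prod.ext_iff.1 (h1 (0, y))).2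
  · have h1 : ∀ g : H × K, p • g = 0 := fun g => q1_small2 (Or.inr h) hH hK f hf g
    constructor
    · exact equiv_of_smul hH fun x => (Prod.ext_iff.1 (h1 (x, 0))).1
    · exact equiv_of_smul hK fun y => (Prod.ext_iff.1 (h1 (0, y))).2
  · exact small_orders (Or.inr (Or.inr ⟨h.1, Or.inr h.2⟩)) hH hK f hf

end Pool.Agent.H38.RX
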