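import Pool.Agent.H38.RX.Defs

/-!
# RX KillsT: subgroups `T` of `p G` generated by an element of order `p`

`card_range_quot`: `p (G / T)` is the image of `p G ⊇ T`, so `|p (G / T)| |T| = |p G|`.
`card_quot_zmul`: `T = AddSubgroup.zmultiples s` has `p` elements and is contained in `p G`.
`line_set`: `p • (gr f x - g) ∈ T` iff `p • gr f x = v + i • s` for some `i < p`, where `p • g = v`.
`kills_T` (optional, only needed for `bjs_odd` in RX/Bjs.lean): `exists_digits` (RB.Dig) for the group `(H × K) ⧸ T`, composed with the quotient map, and `key`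
(RB.Key): the condition `∀ j, p ^ (d j) ∣ (a j (gr f x - v)).val` says `p • (gr f x - v) ∈ T` (compare `sl_kills` in RB.Rank).
`bjs_odd` (RX/Bjs.lean): suppose `κ ≥ r`.  There is a subgroup `T ≤ p G` with `p ^ (κ - r)` elements (Sylow: `Sylow.exists_subgroup_card_pow_prime` for `Multiplicative` of the range of
`nsmulAddMonoidHom p`, mapped into `H × K`; or any other way).  `|p (G / T)| = p ^ r`, so by `kills_T` with `n = 1` (the empty list) the sets `{x | p • (gr f x - v) ∈ T}` have size
divisible by `p`; with `v = gr f x'` it contains `x'`, so at least `p` elements.  Sum over `x'`: at least `p ^ (r + 1)` pairs `(x, x')` with `p • (gr f x - gr f x') ∈ T`; by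
`pair_count` at most `p ^ r + |{g | p • g ∈ T}|`, and `|{g | p • g ∈ T}| = |G[p]| |T| = p ^ (2 r - κ) p ^ (κ - r) = p ^ r` (the kernel of `G → p G → p G / T`; index `p ^ r`).
`p ^ (r + 1) ≤ 2 p ^ r` is false for `p ≥ 3`.
-/

set_option autoImplicit false

namespace Pool.Agent.H38.RX

open Finset Pool.Agent.H16.RB Pool.Agent.H88.Pl
open scoped Classical

theorem kills_T {p r κ n : ℕ} [Fact p.Prime] (hp : p ≠ 2) {H K : Type*} [AddCommGroup H]
    [AddCommGroup K] [Fintype H] [Fintype K] (hH : Fintype.card H = p ^ r)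
    (hK : Fintype.card K = p ^ r) (f : H → K) (hf : IsPlanar f) (T : AddSubgroup (H × K))
    (h1 : 1 ≤ κ) (hκ : Nat.card (Set.range fun g : (H × K) ⧸ T => p • g) = p ^ κ)
    (hn : 2 * (κ + n) ≤ r * (p - 1) + 2) (v : H × K) :
    Kills p (gr f) (univ.filter fun x => p • (gr f x - v) ∈ T) n := by
  have hpp : p.Prime := Fact.out
  have hG : Nat.card (H × K) = p ^ (2 * r) := by
    rw [Nat.card_prod, Nat.card_eq_fintype_card, Nat.card_eq_fintype_card, hH, hK, ← pow_add]
    congr 1
    ring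
  obtain ⟨N, -, hN⟩ : ∃ N ≤ 2 * r, Nat.card ((H × K) ⧸ T) = p ^ N := by
    rw [← Nat.dvd_prime_pow hpp, ← hG]
    exact AddSubgroup.card_quotient_dvd_card T
  obtain ⟨m, d, a, hd, ha⟩ := exists_digits hN hκ
  have h2 := key hp hH f hf d (fun j => (a j).comp (QuotientAddGroup.mk' T)) v n
    (by rw [hd]; exact h1) (by rw [hd]; exact hn)
  refine cast ?_ h2
  congr 1
  ext x
  simp only [mem_filter, mem_univ, true_and, AddMonoidHom.comp_apply]
  rw [ha, ← map_nsmul, QuotientAddGroup.mk'_apply, QuotientAddGroup.eq_zero_iff]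

theorem card_range_quot {p : ℕ} {G : Type*} [AddCommGroup G] [Finite G] (T : AddSubgroup G)
    (hT : ∀ t ∈ T, ∃ g : G, p • g = t) :
    Nat.card (Set.range fun g : G ⧸ T => p • g) * Nat.card T =
      Nat.card (Set.range fun g : G => p • g) := by
  let R : AddSubgroup G := (nsmulAddMonoidHom p : G →+ G).range
  let φ : R →+ G ⧸ T := (QuotientAddGroup.mk' T).comp R.subtype
  have hTR : T ≤ R := by
    intro t ht
    obtain ⟨g, hg⟩ := hT t ht
    exact ⟨g, hg⟩
  have h1 : Nat.card φ.ker * φ.ker.index = Nat.card R := AddSubgroup.card_mul_index _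
  have h2 : φ.ker = T.addSubgroupOf R := by
    ext x
    rw [AddMonoidHom.mem_ker, AddSubgroup.mem_addSubgroupOf]
    change ((x : G) : G ⧸ T) = 0 ↔ _
    rw [QuotientAddGroup.eq_zero_iff]
  have h3 : Nat.card φ.ker = Nat.card T := by
    rw [h2]
    exact Nat.card_congr (AddSubgroup.addSubgroupOfEquivOfLe hTR).toEquiv
  have h4 : φ.ker.index = Nat.card (Set.range fun g : G ⧸ T => p • g) := by
    rw [AddSubgroup.index_ker]
    refine Nat.card_congr (Equiv.setCongr ?_)
    ext y
    constructor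
    · rintro ⟨⟨x, g, hg⟩, rfl⟩
      refine ⟨(g : G ⧸ T), ?_⟩
      change p • (g : G ⧸ T) = ((x : G) : G ⧸ T)
      rw [← hg]
      rfl
    · rintro ⟨g, rfl⟩
      obtain ⟨g, rfl⟩ := QuotientAddGroup.mk_surjective g
      exact ⟨⟨p • g, g, rfl⟩, rfl⟩
  have h5 : Nat.card R = Nat.card (Set.range fun g : G => p • g) := rfl
  rw [h3, h4, h5, mul_comm] at h1
  exact h1

theorem card_quot_zmul {p κ : ℕ} [Fact p.Prime] {G : Type*} [AddCommGroup G] [Finite G] {s : G}
    (hs : p • s = 0) (hs' : ∃ g : G, p • g = s) (h0 : s ≠ 0)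
    (hκ : Nat.card (Set.range fun g : G => p • g) = p ^ κ) :
    1 ≤ κ ∧ Nat.card (Set.range fun g : G ⧸ AddSubgroup.zmultiples s => p • g) = p ^ (κ - 1) := by
  have hpp : p.Prime := Fact.out
  obtain ⟨gs, hgs⟩ := hs'
  have hord : addOrderOf s = p := addOrderOf_eq_prime hs h0
  have hcard : Nat.card (AddSubgroup.zmultiples s) = p := by
    rw [Nat.card_zmultiples, hord]
  have hT : ∀ t ∈ AddSubgroup.zmultiples s, ∃ g : G, p • g = t := by
    rintro t ⟨k, rfl⟩
    refine ⟨k • gs, ?_⟩
    change p • k • gs = k • s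
    rw [← hgs, smul_comm]
  have h1 := card_range_quot (p := p) (AddSubgroup.zmultiples s) hT
  rw [hcard, hκ] at h1
  obtain ⟨κ', rfl⟩ : ∃ κ', κ = κ' + 1 := by
    rcases κ with _ | κ'
    · exfalso
      rw [pow_zero] at h1
      exact hpp.one_lt.ne' (Nat.eq_one_of_mul_eq_one_left h1)
    · exact ⟨κ', rfl⟩
  rw [pow_succ] at h1
  exact ⟨Nat.succ_le_succ (Nat.zero_le _), Nat.eq_of_mul_eq_mul_right hpp.pos h1⟩

theorem line_set {p : ℕ} [Fact p.Prime] {H K : Type*} [AddCommGroup H]
    [AddCommGroup K] [Fintype H] [Fintype K] (f : H → K) {v s g : H × K} (hg : p • g = v)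
    (hs : p • s = 0) :
    (univ.filter fun x => ∃ i < p, p • gr f x = v + i • s) =
      univ.filter fun x => p • (gr f x - g) ∈ AddSubgroup.zmultiples s := by
  have hpp : p.Prime := Fact.out
  ext x
  simp only [mem_filter, mem_univ, true_and]
  have hmem : p • (gr f x - g) ∈ AddSubgroup.zmultiples s ↔
      ∃ i < p, i • s = p • (gr f x - g) := by
    constructor
    · intro h
      rw [mem_zmultiples_iff_mem_range_addOrderOf, mem_image] at h
      obtain ⟨i, hi, h2⟩ := h
      exact ⟨i, (mem_range.1 hi).trans_le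
        (Nat.le_of_dvd hpp.pos (addOrderOf_dvd_of_nsmul_eq_zero hs)), h2⟩
    · rintro ⟨i, -, h2⟩
      rw [← h2]
      exact nsmul_mem (AddSubgroup.mem_zmultiples s) i
  rw [hmem]
  refine exists_congr fun i => and_congr_right fun _ => ?_
  rw [smul_sub, hg, eq_sub_iff_add_eq, add_comm, eq_comm]

end Pool.Agent.H38.RX
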