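import Pool.Agent.H38.RX.Dir

/-!
# RX Bad: many big slices

`Ext.bad`: let `A` be the set of `Ext.dir_count` (it contains `0`).  For `s ∈ Sc \ A` (`s ≠ 0`) by `Ext.line` some `i < p` has `tB (v + i • s)`, and `i ≠ 0` as `v` is flat.
The map `s ↦ (i, i • s)` is injective (`i` is prime to `p`, `p • s = 0`), with values in `{1, …, p - 1} × {t ∈ Sc | tB (v + t)}`.  So
`|Sc| - |A| ≤ (p - 1) b`, and `p ^ a |A| ≤ |Sc|`.
`Ext.loc`: if some `v + t`, `t ∈ Sc`, is flat: `Ext.bad` for `v + t` (the number of big ones is the same, translate by `t`); otherwise every `s ∈ Sc` has `tB (v + s)` or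
`tU (v + s)`, and `p ^ a - 1 ≤ (p - 1) p ^ a`.
`Ext.glob`: sum of `Ext.loc` over `v ∈ PP`; for each `s ∈ Sc` the map `v ↦ v + s` is a bijection of `PP`; divide by `|Sc| > 0`.
-/

set_option autoImplicit false

namespace Pool.Agent.H38.RX

open Finset Pool.Agent.H16.RB Pool.Agent.H88.Pl
open scoped Classical

variable {p r κ a : ℕ} [Fact p.Prime] {H K : Type*} [AddCommGroup H] [AddCommGroup K] [Fintype H]
  [Fintype K] {f : H → K}

omit [Fact p.Prime] in
private theorem Bad_mem_Sc {s : H × K} :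
    s ∈ Sc p H K ↔ p • s = 0 ∧ ∃ g : H × K, p • g = s := by
  unfold Sc
  rw [mem_filter]
  exact ⟨fun h => h.2, fun h => ⟨mem_univ _, h⟩⟩

omit [Fact p.Prime] in
private theorem Bad_mem_PP {s : H × K} : s ∈ PP p H K ↔ ∃ g : H × K, p • g = s := by
  unfold PP
  rw [mem_filter]
  exact ⟨fun h => h.2, fun h => ⟨mem_univ _, h⟩⟩

omit [Fact p.Prime] in
private theorem Bad_zero_mem : (0 : H × K) ∈ Sc p H K :=
  Bad_mem_Sc.2 ⟨smul_zero _, 0, smul_zero _⟩

omit [Fact p.Prime] in
private theorem Bad_Sc_add {s t : H × K} (hs : s ∈ Sc p H K) (ht : t ∈ Sc p H K) :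
    s + t ∈ Sc p H K := by
  rw [Bad_mem_Sc] at hs ht ⊢
  obtain ⟨h1, g, h2⟩ := hs
  obtain ⟨h3, g', h4⟩ := ht
  exact ⟨by rw [smul_add, h1, h3, add_zero], g + g', by rw [smul_add, h2, h4]⟩

omit [Fact p.Prime] in
private theorem Bad_Sc_smul {s : H × K} (hs : s ∈ Sc p H K) (i : ℕ) : i • s ∈ Sc p H K := by
  rw [Bad_mem_Sc] at hs ⊢
  obtain ⟨h1, g, h2⟩ := hs
  exact ⟨by rw [smul_comm, h1, smul_zero], i • g, by rw [smul_comm, h2]⟩

omit [Fact p.Prime] in
private theorem Bad_PP_add {v s : H × K} (hv : v ∈ PP p H K) (hs : s ∈ Sc p H K) :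
    v + s ∈ PP p H K := by
  rw [Bad_mem_Sc] at hs
  rw [Bad_mem_PP] at hv ⊢
  obtain ⟨g, h1⟩ := hv
  obtain ⟨_, g', h2⟩ := hs
  exact ⟨g + g', by rw [smul_add, h1, h2]⟩

omit [Fact p.Prime] in
private theorem Bad_Sc_neg {s : H × K} (hs : s ∈ Sc p H K) : -s ∈ Sc p H K := by
  rw [Bad_mem_Sc] at hs ⊢
  obtain ⟨h1, g, h2⟩ := hs
  exact ⟨by rw [smul_neg, h1, neg_zero], -g, by rw [smul_neg, h2]⟩

private theorem Bad_inj {i : ℕ} (h0 : i ≠ 0) (hi : i < p) {s s' : H × K} (hs : p • s = 0)
    (hs' : p • s' = 0) (h : i • s = i • s') : s = s' := by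
  have hp : p.Prime := Fact.out
  by_contra hne
  have h1 : s - s' ≠ 0 := sub_ne_zero.2 hne
  have h2 : addOrderOf (s - s') = p :=
    addOrderOf_eq_prime (by rw [smul_sub, hs, hs', sub_zero]) h1
  have h3 : i • (s - s') = 0 := by rw [smul_sub, h, sub_self]
  have h4 := addOrderOf_dvd_of_nsmul_eq_zero h3
  rw [h2] at h4
  exact absurd (Nat.le_of_dvd (Nat.pos_of_ne_zero h0) h4) (not_le.2 hi)

/-- the double count of `Ext.glob` -/
private theorem Bad_sum (P : H × K → Prop) :
    ∑ v ∈ PP p H K, ((Sc p H K).filter fun s => P (v + s)).card =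
      (Sc p H K).card * ((PP p H K).filter P).card := by
  have h1 : ∀ v ∈ PP p H K, ((Sc p H K).filter fun s => P (v + s)).card =
      ∑ s ∈ Sc p H K, if P (v + s) then 1 else 0 := by
    intro v _
    rw [Finset.card_filter]
  rw [Finset.sum_congr rfl h1, Finset.sum_comm]
  have h2 : ∀ s ∈ Sc p H K, (∑ v ∈ PP p H K, if P (v + s) then 1 else 0) =
      ((PP p H K).filter P).card := by
    intro s hs
    rw [← Finset.card_filter]
    refine Finset.card_bij (fun v _ => v + s) ?_ ?_ ?_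
    · intro v hv
      rw [mem_filter] at hv ⊢
      exact ⟨Bad_PP_add hv.1 hs, hv.2⟩
    · intro v _ w _ h
      exact add_right_cancel h
    · intro w hw
      rw [mem_filter] at hw
      refine ⟨w + -s, ?_, ?_⟩
      · rw [mem_filter]
        refine ⟨Bad_PP_add hw.1 (Bad_Sc_neg hs), ?_⟩
        rw [neg_add_cancel_right]
        exact hw.2
      · exact neg_add_cancel_right w s
  rw [Finset.sum_congr rfl h2, Finset.sum_const, smul_eq_mul]

theorem Ext.bad (E : Ext p r κ a f) {v : H × K} (hv : v ∈ PP p H K) (hF : tF p a f v) :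
    (p ^ a - 1) * (Sc p H K).card ≤
      (p - 1) * p ^ a * ((Sc p H K).filter fun s => tB p a f (v + s)).card := by
  have hp : p.Prime := Fact.out
  set A := (Sc p H K).filter fun s => tF p a f (v + s) ∧ same p a f v (v + s) with hA
  set B := (Sc p H K).filter fun s => tB p a f (v + s) with hB
  have h1 : A.card * p ^ a ≤ (Sc p H K).card := E.dir_count hv hF
  have hz : ∀ s ∈ Sc p H K \ A, ∃ i : ℕ, i ≠ 0 ∧ i < p ∧ tB p a f (v + i • s) := by
    intro s hs
    rw [mem_sdiff] at hs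
    obtain ⟨hs1, hs2⟩ := hs
    have hs0 : s ≠ 0 := by
      rintro rfl
      refine hs2 (mem_filter.2 ⟨hs1, ?_⟩)
      rw [add_zero]
      exact ⟨hF, fun l => Iff.rfl⟩
    by_contra hcon
    push Not at hcon
    refine hs2 (mem_filter.2 ⟨hs1, E.line hv hF hs1 hs0 fun i hi => ?_⟩)
    rcases eq_or_ne i 0 with rfl | h0
    · rw [zero_smul, add_zero]
      intro h
      unfold tB at h
      rw [hF.1] at h
      exact lt_irrefl _ h
    · exact hcon i h0 hi
  choose! z hz0 hz1 hz2 using hz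
  have h2 : (Sc p H K \ A).card ≤ (((range p).erase 0) ×ˢ B).card := by
    refine Finset.card_le_card_of_injOn (fun s => (z s, z s • s)) ?_ ?_
    · intro s hs
      have hs' : s ∈ Sc p H K \ A := mem_coe.1 hs
      refine mem_coe.2 (mem_product.2 ⟨?_, ?_⟩)
      · exact mem_erase.2 ⟨hz0 s hs', mem_range.2 (hz1 s hs')⟩
      · exact mem_filter.2 ⟨Bad_Sc_smul (mem_sdiff.1 hs').1 _, hz2 s hs'⟩
    · intro s hs s' hs' h
      have hs1 : s ∈ Sc p H K \ A := mem_coe.1 hs
      have hs1' : s' ∈ Sc p H K \ A := mem_coe.1 hs'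
      obtain ⟨e1, e2⟩ := Prod.ext_iff.1 h
      simp only at e1 e2
      rw [← e1] at e2
      exact Bad_inj (hz0 s hs1) (hz1 s hs1) (Bad_mem_Sc.1 (mem_sdiff.1 hs1).1).1
        (Bad_mem_Sc.1 (mem_sdiff.1 hs1').1).1 e2
  rw [card_product, card_erase_of_mem (mem_range.2 hp.pos), card_range] at h2
  have h3 : (Sc p H K).card ≤ A.card + (Sc p H K \ A).card := by
    have := Finset.card_sdiff_add_card (Sc p H K) A
    have h4 := Finset.card_le_card (Finset.subset_union_left (s₁ := Sc p H K) (s₂ := A))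
    omega
  have h5 : (Sc p H K).card ≤ A.card + (p - 1) * B.card := h3.trans (by omega)
  have h6 : (Sc p H K).card * p ^ a ≤ (A.card + (p - 1) * B.card) * p ^ a :=
    Nat.mul_le_mul_right _ h5
  have h7 : (A.card + (p - 1) * B.card) * p ^ a = A.card * p ^ a + (p - 1) * p ^ a * B.card := by
    ring
  rw [Nat.sub_mul, one_mul, mul_comm (p ^ a)]
  omega

theorem Ext.loc (E : Ext p r κ a f) {v : H × K} (hv : v ∈ PP p H K) :
    (p ^ a - 1) * (Sc p H K).card ≤
      (p - 1) * p ^ a * ((Sc p H K).filter fun s => tB p a f (v + s)).card +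
      (p ^ a - 1) * ((Sc p H K).filter fun s => tU p a f (v + s)).card := by
  have hp : p.Prime := Fact.out
  by_cases h : ∃ t ∈ Sc p H K, tF p a f (v + t)
  · obtain ⟨t, ht, hF⟩ := h
    have h1 := E.bad (Bad_PP_add hv ht) hF
    have h2 : ((Sc p H K).filter fun s => tB p a f (v + t + s)).card ≤
        ((Sc p H K).filter fun s => tB p a f (v + s)).card := by
      refine Finset.card_le_card_of_injOn (fun s => t + s) ?_ ?_
      · intro s hs
        rw [mem_coe, mem_filter] at hs ⊢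
        refine ⟨Bad_Sc_add ht hs.1, ?_⟩
        rw [← add_assoc]
        exact hs.2
      · intro s _ s' _ h
        exact add_left_cancel h
    exact (h1.trans (Nat.mul_le_mul_left _ h2)).trans (Nat.le_add_right _ _)
  · push Not at h
    have h1 : (Sc p H K).card ≤ ((Sc p H K).filter fun s => tB p a f (v + s)).card +
        ((Sc p H K).filter fun s => tU p a f (v + s)).card := by
      refine le_trans (Finset.card_le_card ?_) (Finset.card_union_le _ _)
      intro s hs
      rw [mem_union, mem_filter, mem_filter]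
      by_cases hB : tB p a f (v + s)
      · exact Or.inl ⟨hs, hB⟩
      · exact Or.inr ⟨hs, hB, h s hs⟩
    have h2 : p ^ a - 1 ≤ (p - 1) * p ^ a := by
      have h3 : 1 ≤ p - 1 := by have := hp.two_le; omega
      calc p ^ a - 1 ≤ 1 * p ^ a := by omega
        _ ≤ (p - 1) * p ^ a := Nat.mul_le_mul_right _ h3
    calc (p ^ a - 1) * (Sc p H K).card
        ≤ (p ^ a - 1) * (((Sc p H K).filter fun s => tB p a f (v + s)).card +
          ((Sc p H K).filter fun s => tU p a f (v + s)).card) := Nat.mul_le_mul_left _ h1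
      _ = (p ^ a - 1) * ((Sc p H K).filter fun s => tB p a f (v + s)).card +
          (p ^ a - 1) * ((Sc p H K).filter fun s => tU p a f (v + s)).card := mul_add _ _ _
      _ ≤ _ := Nat.add_le_add_right (Nat.mul_le_mul_right _ h2) _

theorem Ext.glob (E : Ext p r κ a f) :
    (p ^ a - 1) * (PP p H K).card ≤
      (p - 1) * p ^ a * ((PP p H K).filter fun v => tB p a f v).card +
      (p ^ a - 1) * ((PP p H K).filter fun v => tU p a f v).card := by
  have h0 : 0 < (Sc p H K).card := card_pos.2 ⟨0, Bad_zero_mem⟩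
  have h1 := Finset.sum_le_sum fun v (hv : v ∈ PP p H K) => E.loc hv
  rw [Finset.sum_const, smul_eq_mul, Finset.sum_add_distrib, ← Finset.mul_sum, ← Finset.mul_sum,
    Bad_sum (p := p) (tB p a f), Bad_sum (p := p) (tU p a f)] at h1
  refine Nat.le_of_mul_le_mul_left (c := _) ?_ h0
  calc (Sc p H K).card * ((p ^ a - 1) * (PP p H K).card)
      = (PP p H K).card * ((p ^ a - 1) * (Sc p H K).card) := by ring
    _ ≤ _ := h1
    _ = _ := by ring

end Pool.Agent.H38.RX
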