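import Pool.Agent.H16.RB.Iso2

/-!
# RX (MP_460e77_co, helper38): the extremal case of the rank bound is impossible: definitions

Builds on `Pool.Agent.H16.RB` (helper16): `f : H → K` planar, `|H| = |K| = p ^ r`, `G = H × K`, `|p G| = p ^ κ`, `gr f x = (x, f x)`,
`sl p f v = {x | p • gr f x = v}` (slices), `Kills p y S n`: the points `y x`, `x ∈ S`, kill all products of fewer than `n` affine functionals.
Extremal case (`Ext`): `r = κ + a`, and the two Kills properties K0, K1 (obtained from `quot_kills` of helper16, RB2).
-/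

set_option autoImplicit false

namespace Pool.Agent.H38.RX

open Finset Pool.Agent.H16.RB Pool.Agent.H88.Pl
open scoped Classical

/-- number of points of `S` in the fibre of the functionals `l` over `c` -/
noncomputable def fb (p : ℕ) {a : ℕ} {X G : Type*} [AddCommGroup G] (y : X → G) (S : Finset X)
    (l : Fin a → (G →+ ZMod p)) (c : Fin a → ZMod p) : ℕ :=
  (S.filter fun x => ∀ i, l i (y x) = c i).card

section

variable {H K : Type*} [AddCommGroup H] [AddCommGroup K] [Fintype H] [Fintype K]

/-- the elements of `p G` -/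
noncomputable def PP (p : ℕ) (H K : Type*) [AddCommGroup H] [AddCommGroup K] [Fintype H]
    [Fintype K] : Finset (H × K) :=
  univ.filter fun v => ∃ g : H × K, p • g = v

/-- the elements of `p G` killed by `p` -/
noncomputable def Sc (p : ℕ) (H K : Type*) [AddCommGroup H] [AddCommGroup K] [Fintype H]
    [Fintype K] : Finset (H × K) :=
  univ.filter fun s => p • s = 0 ∧ ∃ g : H × K, p • g = s

/-- big slices -/
def tB (p a : ℕ) (f : H → K) (v : H × K) : Prop := p ^ a < (sl p f v).card

/-- flat slices -/
def tF (p a : ℕ) (f : H → K) (v : H × K) : Prop :=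
  (sl p f v).card = p ^ a ∧ ∃ l : Fin a → (H × K →+ ZMod p), ¬ p ∣ fb p (gr f) (sl p f v) l 0

/-- the other slices -/
def tU (p a : ℕ) (f : H → K) (v : H × K) : Prop := ¬ tB p a f v ∧ ¬ tF p a f v

/-- the slices over `v` and `w` have the same nonzero fibre numbers modulo `p` -/
def same (p a : ℕ) (f : H → K) (v w : H × K) : Prop :=
  ∀ l : Fin a → (H × K →+ ZMod p),
    (p ∣ fb p (gr f) (sl p f w) l 0 ↔ p ∣ fb p (gr f) (sl p f v) l 0)

/-- The extremal case of the rank bound: `r = κ + a`, the slices kill products of fewer than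
`a * (p - 1)` affine functionals, and the unions of `p` slices on a line in the direction of an element
of `p G` killed by `p` kill one more. -/
structure Ext (p r κ a : ℕ) (f : H → K) : Prop where
  hp2 : p ≠ 2
  hH : Fintype.card H = p ^ r
  hK : Fintype.card K = p ^ r
  hf : IsPlanar f
  hκ : Nat.card (Set.range fun g : H × K => p • g) = p ^ κ
  hr : r = κ + a
  ha : 1 ≤ a
  kills : ∀ {v : H × K}, v ∈ PP p H K → Kills p (gr f) (sl p f v) (a * (p - 1))
  line_kills : ∀ {v s : H × K}, v ∈ PP p H K → s ∈ Sc p H K → s ≠ 0 →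
    Kills p (gr f) (univ.filter fun x => ∃ i < p, p • gr f x = v + i • s) (a * (p - 1) + 1)

end

end Pool.Agent.H38.RX
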