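import Pool.Agent.H38.RX.Types

/-!
# RX Dir: few slices have the same directions

Take `x0 ≠ x1` in `sl p f v` (`p ^ a ≥ 3` points), `δ = gr f x1 - gr f x0`, so `p • δ = 0`.  For each `s` in the set, and each `w ∈ sl p f (v + s)`,
`flat_dir` gives `z ∈ sl p f (v + s)`, `z ≠ w`, with `m (gr f z) - m (gr f w) = m δ` for all `m`, so `gr f z - gr f w - δ ∈ p G` (`sep`, RB.Pair) and `p • (gr f z - gr f w) = 0`.
The pairs `(z, w)` are different for different `w` or `s` (`p • gr f w = v + s`), so by `pair_count` (RB.Pair) with `Q g = (p • g = 0 ∧ ∃ g', p • g' = g - δ)`: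
`(number of s) * p ^ a ≤ |{g | p • g = 0 ∧ g - δ ∈ p G}| ≤ |Sc|` (`g ↦ g - δ`).
-/

set_option autoImplicit false

namespace Pool.Agent.H38.RX

open Finset Pool.Agent.H16.RB Pool.Agent.H88.Pl
open scoped Classical

variable {p r κ a : ℕ} [Fact p.Prime] {H K : Type*} [AddCommGroup H] [AddCommGroup K] [Fintype H]
  [Fintype K] {f : H → K}

omit [Fact p.Prime] [Fintype K] in
private theorem Dir_mem_sl {w : H} {v : H × K} : w ∈ sl p f v ↔ p • gr f w = v := by
  unfold sl
  rw [mem_filter]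
  exact ⟨fun h => h.2, fun h => ⟨mem_univ _, h⟩⟩

omit [Fact p.Prime] in
private theorem Dir_Sc_PP {s : H × K} (hs : s ∈ Sc p H K) : p • s = 0 ∧ s ∈ PP p H K := by
  unfold Sc at hs
  rw [mem_filter] at hs
  unfold PP
  rw [mem_filter]
  exact ⟨hs.2.1, mem_univ _, hs.2.2⟩

theorem Ext.dir_count (E : Ext p r κ a f) {v : H × K} (hv : v ∈ PP p H K) (hF : tF p a f v) :
    ((Sc p H K).filter fun s => tF p a f (v + s) ∧ same p a f v (v + s)).card * p ^ a ≤
      (Sc p H K).card := by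
  have hp : p.Prime := Fact.out
  obtain ⟨hc, l, hl⟩ := hF
  -- two points of the slice
  have h1 : 1 < (sl p f v).card := by
    rw [hc]
    exact Nat.one_lt_pow (by have := E.ha; omega) hp.one_lt
  obtain ⟨x0, hx0, x1, hx1, hne⟩ := Finset.one_lt_card.1 h1
  set δ : H × K := gr f x1 - gr f x0 with hδ
  have hpδ : p • δ = 0 := by
    rw [hδ, smul_sub, Dir_mem_sl.1 hx0, Dir_mem_sl.1 hx1, sub_self]
  set Sg := (Sc p H K).filter fun s => tF p a f (v + s) ∧ same p a f v (v + s) with hSg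
  have hSg' : ∀ s ∈ Sg, s ∈ Sc p H K ∧ tF p a f (v + s) ∧ same p a f v (v + s) := by
    intro s hs
    rw [hSg, mem_filter] at hs
    exact hs
  -- the union of the slices
  set W : Finset H := Sg.biUnion fun s => sl p f (v + s) with hW
  have hWc : W.card = Sg.card * p ^ a := by
    rw [hW, Finset.card_biUnion]
    · rw [Finset.sum_const_nat (m := p ^ a)]
      intro s hs
      exact (hSg' s hs).2.1.1
    · intro s _ s' _ hss
      refine Finset.disjoint_left.2 fun x hx hx' => hss ?_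
      exact add_left_cancel ((Dir_mem_sl.1 hx).symm.trans (Dir_mem_sl.1 hx'))
  have hz : ∀ w ∈ W, ∃ z : H, z ≠ w ∧ p • (gr f z - gr f w) = 0 ∧
      ∃ g' : H × K, p • g' = gr f z - gr f w - δ := by
    intro w hw
    rw [hW, mem_biUnion] at hw
    obtain ⟨s, hs, hw⟩ := hw
    obtain ⟨hsc, hsF, hsame⟩ := hSg' s hs
    obtain ⟨hs0, hsP⟩ := Dir_Sc_PP hsc
    have hvs : v + s ∈ PP p H K := by
      have := PP_add hv hsP 1
      rwa [one_smul] at this
    obtain ⟨z, hz1, hz2, hz3⟩ := flat_dir (gr f) (sl p f v) (sl p f (v + s)) (E.kills hv)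
      (E.kills hvs) hc hsF.1 l hl hsame x0 x1 hx0 hx1 hne w hw
    refine ⟨z, hz2, ?_, ?_⟩
    · rw [smul_sub, Dir_mem_sl.1 hz1, Dir_mem_sl.1 hw, sub_self]
    · refine sep (gr f z - gr f w - δ) fun m => ?_
      rw [map_sub, map_sub, hz3 m, hδ, map_sub, sub_self]
  choose! z hz1 hz2 hz3 using hz
  set Q : H × K → Prop := fun g => p • g = 0 ∧ ∃ g' : H × K, p • g' = g - δ with hQ
  have h2 : W.card ≤
      (univ.filter fun t : H × H => t.1 ≠ t.2 ∧ Q (gr f t.1 - gr f t.2)).card := by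
    refine Finset.card_le_card_of_injOn (fun w => (z w, w)) ?_ ?_
    · intro w hw
      have hw' : w ∈ W := mem_coe.1 hw
      refine mem_coe.2 (mem_filter.2 ⟨mem_univ _, hz1 w hw', hz2 w hw', hz3 w hw'⟩)
    · intro w _ w' _ h
      exact (Prod.ext_iff.1 h).2
  have h3 : (univ.filter fun g : H × K => g.1 ≠ 0 ∧ Q g).card ≤ (Sc p H K).card := by
    refine Finset.card_le_card_of_injOn (fun g => g - δ) ?_ ?_
    · intro g hg
      obtain ⟨_, _, hg1, hg2⟩ := mem_filter.1 (mem_coe.1 hg)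
      unfold Sc
      refine mem_coe.2 (mem_filter.2 ⟨mem_univ _, ?_, hg2⟩)
      show p • (g - δ) = 0
      rw [smul_sub, hg1, hpδ, sub_zero]
    · intro g _ g' _ h
      exact sub_left_injective h
  rw [← hWc]
  refine (h2.trans (le_of_eq ?_)).trans h3
  convert pair_count f E.hf Q

end Pool.Agent.H38.RX
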