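import Pool.Agent.H38.RX.Push2

/-!
# RX Flat: flat families and families with all fibres divisible by `p`

`null_cls`: copy `cls_fibre` (private in Pool/Agent/H16/RB/Cls.lean): there are `a` functionals whose fibre over `y x` is the class of `x`.
`line_closed'`: copy of `line_closed` in Pool/Agent/H16/RB/Cls2.lean with `fb_one` instead of `push_const`; the hypothesis that all classes are single
points is replaced by the existence of `l` with all fibres single points (`l` separates the points of `S`).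
`flat_dir`: `S`, `S'` with `p ^ a` points; `u = y x1 - y x0`.  Let `T = {z ∈ S' | ∃ m, m u = 0 ∧ m (y z - y w) ≠ 0}`.  If every `z ∈ S'`, `z ≠ w`, is in `T`
(`w ∉ T`, so `T.card < p ^ a`) then `iso` gives `τ` with `τ i u = 0` whose fibre over `y w` in `S'` is `{w}`, so `¬ p ∣ fb p y S' τ 0` (`push_all`), hence
`¬ p ∣ fb p y S τ 0` and by `fb_one` all fibres of `τ` on `S` are single points; but `x0`, `x1` are in one fibre.  So some `z ∈ S'`, `z ≠ w`, is not in `T`: every
functional killing `u` kills `y z - y w`, so as in the proof of `line_closed` (`hline`) there is `t : ZMod p` with `m (y z - y w) = t * m u` for all `m` (`u` is not killed by all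
functionals, since the fibres of `l` on `S` are single points), `t ≠ 0` as `l'` separates `z` and `w`.  Now `line_closed'` for `S'`, `w`, `z` with `1 / t`.
-/

set_option autoImplicit false

namespace Pool.Agent.H38.RX

open Finset Pool.Agent.H16.RB Pool.Agent.H88.Pl
open scoped Classical

private theorem cls_fibre {p a : ℕ} [Fact p.Prime] {X G : Type*}
    [AddCommGroup G] [Finite G] (y : X → G) (S : Finset X)
    (hS : S.card ≤ p ^ a) (x : X) (hx : x ∈ S) :
    ∃ τ : Fin a → (G →+ ZMod p), (S.filter fun x' => ∀ i, τ i (y x') = τ i (y x)) =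
      cls p y S (y x) := by
  classical
  have hT : (S.filter fun x' => ¬ ∀ l : G →+ ZMod p, l (y x') = l (y x)).card < p ^ a := by
    refine lt_of_lt_of_le (Finset.card_lt_card ?_) hS
    refine ⟨Finset.filter_subset _ _, fun h => ?_⟩
    have := (Finset.mem_filter.1 (h hx)).2
    exact this fun l => rfl
  obtain ⟨τ, -, hτ⟩ := iso (p := p) (0 : G) (fun x' => y x' - y x) a
    (S.filter fun x' => ¬ ∀ l : G →+ ZMod p, l (y x') = l (y x)) hT (by
      intro x' hx'
      have h1 := (Finset.mem_filter.1 hx').2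
      push Not at h1
      obtain ⟨l, hl⟩ := h1
      exact ⟨l, map_zero l, by rw [map_sub]; exact sub_ne_zero.2 hl⟩)
  refine ⟨τ, ?_⟩
  ext x'
  simp only [cls, Finset.mem_filter]
  constructor
  · rintro ⟨h1, h2⟩
    refine ⟨h1, ?_⟩
    by_contra h3
    obtain ⟨i, hi⟩ := hτ x' (Finset.mem_filter.2 ⟨h1, h3⟩)
    rw [map_sub, h2 i, sub_self] at hi
    exact hi rfl
  · rintro ⟨h1, h2⟩
    exact ⟨h1, fun i => h2 (τ i)⟩

/-- if all fibres are single points, the functionals separate the points of `S` -/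
private theorem fb_inj {p a : ℕ} {X G : Type*} [AddCommGroup G] {y : X → G} {S : Finset X}
    {l : Fin a → (G →+ ZMod p)} (hl : ∀ c, fb p y S l c = 1) {z w : X} (hz : z ∈ S) (hw : w ∈ S)
    (h : ∀ i, l i (y z) = l i (y w)) : z = w := by
  have h1 := hl (fun i => l i (y w))
  unfold fb at h1
  rw [Finset.card_eq_one] at h1
  obtain ⟨b, hb⟩ := h1
  have hz' : z ∈ S.filter fun x => ∀ i, l i (y x) = l i (y w) :=
    Finset.mem_filter.2 ⟨hz, h⟩
  have hw' : w ∈ S.filter fun x => ∀ i, l i (y x) = l i (y w) :=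
    Finset.mem_filter.2 ⟨hw, fun i => rfl⟩
  rw [hb, Finset.mem_singleton] at hz' hw'
  rw [hz', hw']

/-- if all functionals killing `u` kill `v`, then `v` is a multiple of `u` for all functionals -/
private theorem prop_of_kills {p : ℕ} [Fact p.Prime] {G : Type*} [AddCommGroup G] {u v : G}
    {l₀ : G →+ ZMod p} (hl₀ : l₀ u ≠ 0) (hall : ∀ m : G →+ ZMod p, m u = 0 → m v = 0)
    (l : G →+ ZMod p) : l v = l₀ v / l₀ u * l u := by
  have h7 := hall (l - (AddMonoidHom.mulLeft (l u / l₀ u)).comp l₀) (by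
    simp only [AddMonoidHom.sub_apply, AddMonoidHom.comp_apply, AddMonoidHom.coe_mulLeft]
    rw [div_mul_cancel₀ _ hl₀, sub_self])
  simp only [AddMonoidHom.sub_apply, AddMonoidHom.comp_apply, AddMonoidHom.coe_mulLeft] at h7
  have h9 : l v = l u / l₀ u * l₀ v := sub_eq_zero.mp h7
  rw [h9]
  rw [div_mul_eq_mul_div, div_mul_eq_mul_div, mul_comm]

theorem null_cls {p a : ℕ} [Fact p.Prime] {X G : Type*} [AddCommGroup G] [Finite G] (y : X → G)
    (S : Finset X) (hS : S.card ≤ p ^ a)
    (h0 : ∀ (l : Fin a → (G →+ ZMod p)) (c : Fin a → ZMod p), p ∣ fb p y S l c)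
    (x : X) (hx : x ∈ S) : p ∣ (cls p y S (y x)).card := by
  obtain ⟨τ, hτ⟩ := cls_fibre (p := p) (a := a) y S hS x hx
  have h1 := h0 τ fun i => τ i (y x)
  unfold fb at h1
  rw [hτ] at h1
  exact h1

theorem line_closed' {p a : ℕ} [Fact p.Prime] {X G : Type*} [AddCommGroup G] [Finite G]
    (y : X → G) (S : Finset X) (hK : Kills p y S (a * (p - 1))) (hS : S.card = p ^ a)
    (l : Fin a → (G →+ ZMod p)) (hl : ∀ c, fb p y S l c = 1) (x x' : X) (hx : x ∈ S)
    (hx' : x' ∈ S) (hne : x ≠ x') (t : ZMod p) :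
    ∃ z ∈ S, ∀ m : G →+ ZMod p, m (y z) = m (y x) + t * (m (y x') - m (y x)) := by
  have hp0 : 0 < p := (Fact.out : p.Prime).pos
  -- a homomorphism separating `x` and `x'`
  have hsep : ∃ l₀ : G →+ ZMod p, l₀ (y x' - y x) ≠ 0 := by
    by_contra hcon
    push Not at hcon
    exact hne (fb_inj hl hx hx' fun i => by
      have := hcon (l i)
      rw [map_sub] at this
      exact (sub_eq_zero.mp this).symm)
  obtain ⟨l₀, hl₀⟩ := hsep
  set T : Finset X := S.filter fun z => ∃ l : G →+ ZMod p, l (y x' - y x) = 0 ∧ l (y z - y x) ≠ 0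
    with hT
  have hxT : x ∉ T := by
    simp only [hT, Finset.mem_filter, not_and, not_exists]
    intro _ l hl
    simp
  have hTS : T ⊆ S.erase x := by
    intro z hz
    rw [Finset.mem_erase]
    refine ⟨?_, Finset.mem_of_mem_filter z hz⟩
    rintro rfl
    exact hxT hz
  have hTc : T.card < p ^ a := by
    have h3' := Finset.card_le_card hTS
    rw [Finset.card_erase_of_mem hx] at h3'
    have h4 : 0 < S.card := Finset.card_pos.mpr ⟨x, hx⟩
    omega
  obtain ⟨τ, hτu, hτT⟩ := iso (p := p) (y x' - y x) (fun z => y z - y x) a T hTc (by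
    intro z hz
    exact (Finset.mem_filter.mp hz).2)
  set F : Finset X := S.filter fun z => ∀ i, τ i (y z) = τ i (y x) with hF
  have hxF : x ∈ F := by
    simp [hF, hx]
  have hx'F : x' ∈ F := by
    simp only [hF, Finset.mem_filter]
    refine ⟨hx', fun i => ?_⟩
    have := hτu i
    rw [map_sub] at this
    exact sub_eq_zero.mp this
  have hFp : p ≤ F.card := by
    have hFpos : 0 < F.card := Finset.card_pos.mpr ⟨x, hxF⟩
    by_cases h : p ∣ fb p y S τ fun i => τ i (y x)
    · refine Nat.le_of_dvd hFpos ?_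
      unfold fb at h
      exact h
    · exfalso
      have h5 := (fb_one y S hK hS.le τ _ h).2
      exact hne (fb_inj h5 hx hx' fun i => ((Finset.mem_filter.mp hx'F).2 i).symm)
  -- every point of the fibre lies on the line
  set c : X → ZMod p := fun z => l₀ (y z - y x) / l₀ (y x' - y x) with hc
  have hline : ∀ z ∈ F, ∀ l : G →+ ZMod p, l (y z) = l (y x) + c z * (l (y x') - l (y x)) := by
    intro z hz l
    have hzS : z ∈ S := (Finset.mem_filter.mp hz).1
    have hzT : z ∉ T := by
      intro hzT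
      obtain ⟨i, hi⟩ := hτT z hzT
      apply hi
      show τ i (y z - y x) = 0
      rw [map_sub, (Finset.mem_filter.mp hz).2 i, sub_self]
    have hall : ∀ m : G →+ ZMod p, m (y x' - y x) = 0 → m (y z - y x) = 0 := by
      intro m hm
      by_contra hcon
      exact hzT (Finset.mem_filter.mpr ⟨hzS, m, hm, hcon⟩)
    have h8 := prop_of_kills hl₀ hall l
    rw [map_sub l, map_sub l] at h8
    rw [hc]
    linear_combination h8
  have hinj : Set.InjOn c (F : Set X) := by
    intro z hz w hw hzw
    have hz' : z ∈ F := hz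
    have hw' : w ∈ F := hw
    exact fb_inj hl (Finset.mem_filter.mp hz').1 (Finset.mem_filter.mp hw').1 fun i => by
      rw [hline w hw' (l i), hline z hz' (l i), hzw]
  have himg : F.image c = Finset.univ := by
    apply Finset.eq_univ_of_card
    apply le_antisymm (Finset.card_le_univ _)
    rw [Finset.card_image_of_injOn hinj, ZMod.card]
    exact hFp
  have htm : t ∈ F.image c := by
    rw [himg]
    exact Finset.mem_univ t
  obtain ⟨z, hz, hzt⟩ := Finset.mem_image.mp htm
  refine ⟨z, (Finset.mem_filter.mp hz).1, fun l => ?_⟩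
  rw [hline z hz l, hzt]

theorem flat_dir {p a : ℕ} [Fact p.Prime] {X G : Type*} [AddCommGroup G] [Finite G] (y : X → G)
    (S S' : Finset X) (hK : Kills p y S (a * (p - 1))) (hK' : Kills p y S' (a * (p - 1)))
    (hS : S.card = p ^ a) (hS' : S'.card = p ^ a)
    (l : Fin a → (G →+ ZMod p)) (hl : ¬ p ∣ fb p y S l 0)
    (hsame : ∀ m : Fin a → (G →+ ZMod p), (p ∣ fb p y S' m 0 ↔ p ∣ fb p y S m 0))
    (x0 x1 : X) (hx0 : x0 ∈ S) (hx1 : x1 ∈ S) (hne : x0 ≠ x1) (w : X) (hw : w ∈ S') :
    ∃ z ∈ S', z ≠ w ∧ ∀ m : G →+ ZMod p, m (y z) - m (y w) = m (y x1) - m (y x0) := by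
  have hp : p.Prime := Fact.out
  have hl1 := (fb_one y S hK hS.le l 0 hl).2
  have hl' : ¬ p ∣ fb p y S' l 0 := fun h => hl ((hsame l).1 h)
  have hl2 := (fb_one y S' hK' hS'.le l 0 hl').2
  set u : G := y x1 - y x0 with hu
  -- a functional which does not kill `u`
  obtain ⟨i₀, hi₀⟩ : ∃ i, l i u ≠ 0 := by
    by_contra hcon
    push Not at hcon
    exact hne (fb_inj hl1 hx0 hx1 fun i => by
      have := hcon i
      rw [hu, map_sub] at this
      exact (sub_eq_zero.mp this).symm)
  set T : Finset X := S'.filter fun z => ∃ m : G →+ ZMod p, m u = 0 ∧ m (y z - y w) ≠ 0 with hT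
  have hwT : w ∉ T := by
    simp only [hT, Finset.mem_filter, not_and, not_exists]
    intro _ m hm
    simp
  have hTS : T ⊆ S'.erase w := by
    intro z hz
    rw [Finset.mem_erase]
    refine ⟨?_, Finset.mem_of_mem_filter z hz⟩
    rintro rfl
    exact hwT hz
  have hTc : T.card < p ^ a := by
    have h3' := Finset.card_le_card hTS
    rw [Finset.card_erase_of_mem hw] at h3'
    have h4 : 0 < S'.card := Finset.card_pos.mpr ⟨w, hw⟩
    omega
  obtain ⟨z, hzS, hzw, hzT⟩ : ∃ z ∈ S', z ≠ w ∧ z ∉ T := by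
    by_contra hcon
    push Not at hcon
    obtain ⟨τ, hτu, hτT⟩ := iso (p := p) u (fun z => y z - y w) a T hTc (by
      intro z hz
      exact (Finset.mem_filter.mp hz).2)
    have h1 : fb p y S' τ (fun i => τ i (y w)) = 1 := by
      unfold fb
      rw [Finset.card_eq_one]
      refine ⟨w, ?_⟩
      ext z
      rw [Finset.mem_filter, Finset.mem_singleton]
      constructor
      · rintro ⟨h1, h2⟩
        by_contra h3
        obtain ⟨i, hi⟩ := hτT z (hcon z h1 h3)
        apply hi
        show τ i (y z - y w) = 0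
        rw [map_sub, h2 i, sub_self]
      · rintro rfl
        exact ⟨hw, fun i => rfl⟩
    have h2 := push_all y S' hK' τ (fun i => τ i (y w)) 0
    rw [h1] at h2
    have h3 : ¬ p ∣ fb p y S' τ 0 := by
      intro h
      rw [← ZMod.natCast_eq_zero_iff, ← h2, Nat.cast_one] at h
      exact one_ne_zero h
    have h4 : ¬ p ∣ fb p y S τ 0 := fun h => h3 ((hsame τ).2 h)
    have h5 := (fb_one y S hK hS.le τ 0 h4).2
    exact hne (fb_inj h5 hx0 hx1 fun i => by
      have := hτu i
      rw [hu, map_sub] at this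
      exact (sub_eq_zero.mp this).symm)
  have hall : ∀ m : G →+ ZMod p, m u = 0 → m (y z - y w) = 0 := by
    intro m hm
    by_contra hcon
    exact hzT (Finset.mem_filter.mpr ⟨hzS, m, hm, hcon⟩)
  have hprop := prop_of_kills hi₀ hall
  set t : ZMod p := l i₀ (y z - y w) / l i₀ u with ht
  have ht0 : t ≠ 0 := by
    intro h0
    refine hzw (fb_inj hl2 hzS hw fun i => ?_)
    have h6 := hprop (l i)
    rw [h0, zero_mul, map_sub] at h6
    exact sub_eq_zero.mp h6
  obtain ⟨z', hz'S, hz'⟩ := line_closed' y S' hK' hS' l hl2 w z hw hzS (Ne.symm hzw) t⁻¹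
  have hfin : ∀ m : G →+ ZMod p, m (y z') - m (y w) = m u := by
    intro m
    have h6 := hprop m
    rw [map_sub] at h6
    rw [hz' m, h6]
    have h7 : t⁻¹ * t = 1 := inv_mul_cancel₀ ht0
    linear_combination m u * h7
  refine ⟨z', hz'S, ?_, fun m => ?_⟩
  · rintro rfl
    apply hi₀
    rw [← hfin (l i₀), sub_self]
  · rw [hfin m, hu, map_sub]

end Pool.Agent.H38.RX
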