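import Pool.Agent.H38.RX.Types
import Pool.Agent.H38.RX.Flat
import Pool.Agent.H16.RB.Rank

/-!
# RX Mom: moments of the slice sizes, collisions

`Ext.card_PP`: `hκ`.  `Ext.sum1`: the slices over `PP` partition `H`, `p ^ r = p ^ a p ^ κ`.  `Ext.sum2`: the sum of the squares is the number of pairs with the same
`p`-multiple, `= ∑ x, |sl p f (p • gr f x)|`, `Rank.pairs_le` and `Rank.card_ker` (RB.Rank): `|G[p]| = p ^ (2 r - κ) = p ^ (2 a) p ^ κ`.
`Ext.coll`: as `hAc` in the proof of `rank_bound` (RB.Rank): for `x` in a slice of type `tU` the class has size divisible by `p` (`Ext.null`, `null_cls`), so at least `p - 1` other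
elements, which differ from `x` by elements of `p G` (`sep`); by `pair_count` at most `|p G| = p ^ κ` pairs.
-/

set_option autoImplicit false

namespace Pool.Agent.H38.RX

open Finset Pool.Agent.H16.RB Pool.Agent.H88.Pl
open scoped Classical

variable {p r κ a : ℕ} [Fact p.Prime] {H K : Type*} [AddCommGroup H] [AddCommGroup K] [Fintype H]
  [Fintype K] {f : H → K}

theorem Ext.card_PP (E : Ext p r κ a f) : (PP p H K).card = p ^ κ := by
  rw [← E.hκ, Nat.card_eq_fintype_card, ← Set.toFinset_card]
  congr 1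
  ext v
  rw [PP, mem_filter, Set.mem_toFinset]
  exact ⟨fun h => h.2, fun h => ⟨mem_univ _, h⟩⟩

private theorem Mom_mem (p : ℕ) (f : H → K) (x : H) : p • gr f x ∈ PP p H K := by
  rw [PP, mem_filter]
  exact ⟨mem_univ _, _, rfl⟩

private theorem Ext.Mom_card (E : Ext p r κ a f) : Fintype.card H = p ^ a * p ^ κ := by
  rw [E.hH, E.hr, pow_add, mul_comm]

theorem Ext.sum1 (E : Ext p r κ a f) :
    ∑ v ∈ PP p H K, (sl p f v).card = p ^ a * p ^ κ := by
  rw [← E.Mom_card, ← card_univ]
  exact (card_eq_sum_card_fiberwise (f := fun x => p • gr f x) (t := PP p H K)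
    fun x _ => Mom_mem p f x).symm

theorem Ext.sum2 (E : Ext p r κ a f) :
    ∑ v ∈ PP p H K, (sl p f v).card ^ 2 ≤ p ^ a * p ^ κ + p ^ a * p ^ a * p ^ κ := by
  have hpp : p.Prime := Fact.out
  have h1 : ∑ v ∈ PP p H K, (sl p f v).card ^ 2 = ∑ x, (sl p f (p • gr f x)).card := by
    rw [← sum_fiberwise_of_maps_to (g := fun x => p • gr f x) (t := PP p H K)
      fun x _ => Mom_mem p f x]
    refine sum_congr rfl fun v _ => ?_
    have h2 : ∀ x ∈ univ.filter (fun x => p • gr f x = v),
        (sl p f (p • gr f x)).card = (sl p f v).card := by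
      intro x hx
      rw [(mem_filter.1 hx).2]
    rw [sum_congr rfl h2, sum_const, smul_eq_mul, sq]
    rfl
  have h4 := Rank.card_ker E.hH E.hK E.hκ
  have h5 : (univ.filter fun g : H × K => p • g = 0).card = p ^ a * p ^ a * p ^ κ := by
    have h6 : (univ.filter fun g : H × K => p • g = 0).card * p ^ κ =
        p ^ a * p ^ a * p ^ κ * p ^ κ := by
      rw [h4, E.hr]; ring
    exact Nat.eq_of_mul_eq_mul_right (pow_pos hpp.pos κ) h6
  rw [h1]
  refine (Rank.pairs_le (p := p) f E.hf).trans (le_of_eq ?_)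
  rw [E.Mom_card, h5]

theorem Ext.coll (E : Ext p r κ a f) :
    (p - 1) * ∑ v ∈ (PP p H K).filter (fun v => tU p a f v), (sl p f v).card ≤ p ^ κ := by
  have hpp : p.Prime := Fact.out
  set A : Finset H := univ.filter fun x => tU p a f (p • gr f x) with hA
  have hsum : ∑ v ∈ (PP p H K).filter (fun v => tU p a f v), (sl p f v).card = A.card := by
    rw [card_eq_sum_card_fiberwise (f := fun x => p • gr f x)
      (t := (PP p H K).filter (fun v => tU p a f v))]
    · refine sum_congr rfl fun v hv => ?_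
      congr 1
      ext x
      rw [hA, mem_filter, mem_filter, sl, mem_filter]
      constructor
      · intro h
        exact ⟨⟨mem_univ _, by rw [h.2]; exact (mem_filter.1 hv).2⟩, h.2⟩
      · intro h
        exact ⟨mem_univ _, h.2⟩
    · intro x hx
      rw [mem_coe, hA, mem_filter] at hx
      rw [mem_coe, mem_filter]
      exact ⟨Mom_mem p f x, hx.2⟩
  rw [hsum, mul_comm]
  have hmem : ∀ x, x ∈ sl p f (p • gr f x) := fun x => by
    rw [sl, mem_filter]; exact ⟨mem_univ _, rfl⟩
  have hcls : ∀ x ∈ A, p ∣ (cls p (gr f) (sl p f (p • gr f x)) (gr f x)).card := by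
    intro x hx
    rw [hA, mem_filter] at hx
    refine null_cls (a := a) (gr f) _ (not_lt.1 hx.2.1) (fun l c => ?_) x (hmem x)
    exact E.null (Mom_mem p f x) hx.2 l c
  have h1 : A.card * (p - 1) ≤ (univ.filter fun z : H × H => z.1 ≠ z.2 ∧
      ∃ g' : H × K, p • g' = gr f z.1 - gr f z.2).card := by
    have h2 : ∑ x ∈ A, ((univ.filter fun z : H × H => z.1 ≠ z.2 ∧
        ∃ g' : H × K, p • g' = gr f z.1 - gr f z.2).filter fun z => z.1 = x).card ≤
        (univ.filter fun z : H × H => z.1 ≠ z.2 ∧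
        ∃ g' : H × K, p • g' = gr f z.1 - gr f z.2).card := by
      rw [← card_biUnion]
      · refine card_le_card fun z hz => ?_
        rw [mem_biUnion] at hz
        obtain ⟨x, -, hx⟩ := hz
        exact (mem_filter.1 hx).1
      · intro x _ y _ hxy
        rw [Function.onFun, disjoint_left]
        intro z hz hz'
        exact hxy ((mem_filter.1 hz).2.symm.trans (mem_filter.1 hz').2)
    refine le_trans ?_ h2
    rw [← smul_eq_mul]
    refine card_nsmul_le_sum _ _ _ fun x hx => ?_
    have hxc : x ∈ cls p (gr f) (sl p f (p • gr f x)) (gr f x) := by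
      rw [cls, mem_filter]; exact ⟨hmem x, fun _ => rfl⟩
    have h3 : p ≤ (cls p (gr f) (sl p f (p • gr f x)) (gr f x)).card :=
      Nat.le_of_dvd (card_pos.2 ⟨x, hxc⟩) (hcls x hx)
    have h4 : p - 1 ≤ ((cls p (gr f) (sl p f (p • gr f x)) (gr f x)).erase x).card := by
      rw [card_erase_of_mem hxc]; omega
    refine h4.trans (card_le_card_of_injOn (fun y => (x, y)) ?_ ?_)
    · intro y hy
      rw [mem_coe, mem_erase, cls, mem_filter] at hy
      rw [mem_coe, mem_filter, mem_filter]
      refine ⟨⟨mem_univ _, fun h => hy.1 h.symm, ?_⟩, rfl⟩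
      exact sep _ fun l => by rw [map_sub, hy.2.2 l, sub_self]
    · intro y _ y' _ h
      exact (Prod.ext_iff.1 h).2
  refine h1.trans ?_
  have h2 := pair_count f E.hf fun g => ∃ g' : H × K, p • g' = g
  have h3 : (univ.filter fun z : H × H => z.1 ≠ z.2 ∧
      ∃ g' : H × K, p • g' = gr f z.1 - gr f z.2).card =
      (univ.filter fun g : H × K => g.1 ≠ 0 ∧ ∃ g' : H × K, p • g' = g).card := by convert h2
  rw [h3, ← E.card_PP]
  refine card_le_card fun g hg => ?_
  rw [mem_filter] at hg
  rw [PP, mem_filter]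
  exact ⟨mem_univ _, hg.2.2⟩

end Pool.Agent.H38.RX
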