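import Pool.Agent.H38.RX.Bad
import Pool.Agent.H38.RX.Mom

/-!
# RX Fin: the extremal case is impossible

`x = p ^ a`, `N = p ^ κ`, `B`, `U`, `F` the types of the slices, `n_v` their sizes, `τ = ∑_U n_v`, `Δ = ∑_B (n_v - x) = x |U| - τ`.
`Δ ≥ p |B|`, `(x + p) Δ - (x - p) τ ≤ x N`, `(p - 1) τ ≤ N`, `(x - 1) N ≤ (p - 1) x |B| + (x - 1) |U|`: together `p² - 2 p - 1 ≤ 0`.
-/

set_option autoImplicit false

namespace Pool.Agent.H38.RX

open Finset Pool.Agent.H16.RB Pool.Agent.H88.Pl
open scoped Classical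

private theorem fin_arith {p x N b u D t : ℤ} (hp : 3 ≤ p) (hx : p ≤ x) (hN : 0 < N)
    (hD : p * b ≤ D) (hu : D = x * u - t) (h1 : (x + p) * D - (x - p) * t ≤ x * N)
    (ht : (p - 1) * t ≤ N)
    (h2 : (x - 1) * N ≤ (p - 1) * x * b + (x - 1) * u) : False := by
  have hx0 : 0 < x := by linarith
  -- multiply the last inequality by `p * x`
  have h3 : p * x * ((x - 1) * N) ≤ (p - 1) * x ^ 2 * D + p * (x - 1) * (D + t) := by
    have e1 : p * x * ((x - 1) * N) ≤ p * x * ((p - 1) * x * b + (x - 1) * u) :=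
      mul_le_mul_of_nonneg_left h2 (by positivity)
    have e2 : (p - 1) * x ^ 2 * (p * b) ≤ (p - 1) * x ^ 2 * D :=
      mul_le_mul_of_nonneg_left hD (mul_nonneg (by linarith) (by positivity))
    have e3 : x * u = D + t := by linarith
    have e4 : p * x * ((p - 1) * x * b + (x - 1) * u) =
        (p - 1) * x ^ 2 * (p * b) + p * (x - 1) * (x * u) := by ring
    rw [e3] at e4
    linarith
  obtain ⟨c, hc⟩ : ∃ c, c = (p - 1) * x ^ 2 + p * (x - 1) := ⟨_, rfl⟩
  have hc0 : 0 ≤ c := by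
    rw [hc]
    have : 0 ≤ (p - 1) * x ^ 2 := mul_nonneg (by linarith) (by positivity)
    have : 0 ≤ p * (x - 1) := mul_nonneg (by linarith) (by linarith)
    linarith
  have h4 : p * x * ((x - 1) * N) ≤ c * D + p * (x - 1) * t := by
    rw [hc]
    linarith
  -- multiply by `x + p` and use `h1`
  have h5 : (x + p) * (p * x * ((x - 1) * N)) ≤
      c * (x * N + (x - p) * t) + (x + p) * (p * (x - 1) * t) := by
    have e1 := mul_le_mul_of_nonneg_left h4 (show 0 ≤ x + p by linarith)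
    have e2 := mul_le_mul_of_nonneg_left h1 hc0
    have e3 : (x + p) * (c * D + p * (x - 1) * t) =
        c * ((x + p) * D) + (x + p) * (p * (x - 1) * t) := by ring
    have e4 : c * ((x + p) * D - (x - p) * t) = c * ((x + p) * D) - c * ((x - p) * t) := by ring
    have e5 : c * (x * N + (x - p) * t) = c * (x * N) + c * ((x - p) * t) := by ring
    linarith
  -- multiply by `p - 1` and use `ht`
  have h6 : (p - 1) * ((x + p) * (p * x * ((x - 1) * N))) ≤
      (p - 1) * (c * (x * N)) + (c * (x - p) + (x + p) * (p * (x - 1))) * N := by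
    have e0 : 0 ≤ c * (x - p) + (x + p) * (p * (x - 1)) := by
      have e1 : 0 ≤ c * (x - p) := mul_nonneg hc0 (by linarith)
      have e2 : 0 ≤ (x + p) * (p * (x - 1)) :=
        mul_nonneg (by linarith) (mul_nonneg (by linarith) (by linarith))
      linarith
    have e1 := mul_le_mul_of_nonneg_left h5 (show 0 ≤ p - 1 by linarith)
    have e2 := mul_le_mul_of_nonneg_left ht e0
    have e3 : (p - 1) * (c * (x * N + (x - p) * t) + (x + p) * (p * (x - 1) * t)) =
        (p - 1) * (c * (x * N)) +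
          (c * (x - p) + (x + p) * (p * (x - 1))) * ((p - 1) * t) := by ring
    linarith
  have h7 : (p - 1) * (c * (x * N)) + (c * (x - p) + (x + p) * (p * (x - 1))) * N =
      p * (x - 1) * N * (c + x + p) := by ring
  have h8 : (p - 1) * ((x + p) * (p * x * ((x - 1) * N))) =
      p * (x - 1) * N * ((p - 1) * x * (x + p)) := by ring
  rw [h7, h8] at h6
  have h9 : 0 < p * (x - 1) * N := mul_pos (mul_pos (by linarith) (by linarith)) hN
  have h10 := le_of_mul_le_mul_left h6 h9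
  rw [hc] at h10
  have h11 : x * (p ^ 2 - 2 * p - 1) ≤ 0 := by
    have e1 : x * (p ^ 2 - 2 * p - 1) =
        (p - 1) * x * (x + p) - ((p - 1) * x ^ 2 + p * (x - 1) + x + p) := by ring
    rw [e1]
    linarith
  have h12 : 0 < p ^ 2 - 2 * p - 1 := by nlinarith
  have h13 := mul_pos hx0 h12
  linarith

theorem Ext.false {p r κ a : ℕ} [Fact p.Prime] {H K : Type*} [AddCommGroup H] [AddCommGroup K]
    [Fintype H] [Fintype K] {f : H → K} (E : Ext p r κ a f) : False := by
  have hpp : p.Prime := Fact.out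
  have hp3 : 3 ≤ p := by
    have h2 := hpp.two_le
    have h3 := E.hp2
    omega
  have hc := E.card_PP
  have h1 := E.sum1
  have h2 := E.sum2
  have h3 := E.coll
  have h4 := E.glob
  rw [hc] at h4
  obtain ⟨x, hx⟩ : ∃ x, x = p ^ a := ⟨_, rfl⟩
  obtain ⟨N, hN⟩ : ∃ N, N = p ^ κ := ⟨_, rfl⟩
  have hN0 : 0 < N := by rw [hN]; exact pow_pos hpp.pos _
  have hpx : p ∣ x := by rw [hx]; exact dvd_pow_self p (by have := E.ha; omega)
  have hx0 : 0 < x := by rw [hx]; exact pow_pos hpp.pos _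
  have hxp : p ≤ x := Nat.le_of_dvd hx0 hpx
  rw [← hx, ← hN] at h1 h2 h4
  rw [← hN] at h3 hc
  -- the types
  set P := PP p H K with hP
  have hBF : ∀ v, tF p a f v → ¬ tB p a f v := by
    intro v h h'
    rw [tB, h.1] at h'
    exact lt_irrefl _ h'
  have hsplit : ∀ F : H × K → ℤ, ∑ v ∈ P, F v = ∑ v ∈ P.filter (fun v => tB p a f v), F v +
      ∑ v ∈ P.filter (fun v => tU p a f v), F v + ∑ v ∈ P.filter (fun v => tF p a f v), F v := by
    intro F
    rw [sum_filter, sum_filter, sum_filter, ← sum_add_distrib, ← sum_add_distrib]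
    refine sum_congr rfl fun v _ => ?_
    by_cases hB : tB p a f v
    · have hU : ¬ tU p a f v := fun h => h.1 hB
      have hF : ¬ tF p a f v := fun h => hBF v h hB
      simp [hB, hU, hF]
    · by_cases hF : tF p a f v
      · have hU : ¬ tU p a f v := fun h => h.2 hF
        simp [hB, hU, hF]
      · have hU : tU p a f v := ⟨hB, hF⟩
        simp [hB, hU, hF]
  obtain ⟨b, hb⟩ : ∃ b, b = ((P.filter (fun v => tB p a f v)).card : ℤ) := ⟨_, rfl⟩
  obtain ⟨u, hu⟩ : ∃ u, u = ((P.filter (fun v => tU p a f v)).card : ℤ) := ⟨_, rfl⟩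
  obtain ⟨n, hn⟩ : ∃ n : H × K → ℤ, ∀ v, n v = ((sl p f v).card : ℤ) := ⟨_, fun _ => rfl⟩
  -- zeroth, first and second moments
  have hF1 : ∀ v, tF p a f v → n v = x := by
    intro v h
    rw [hn, h.1, hx]
  have hm0 : (N : ℤ) = b + u + ((P.filter (fun v => tF p a f v)).card : ℤ) := by
    have h := hsplit fun _ => 1
    simp only [sum_const, nsmul_eq_mul, mul_one] at h
    rw [hc] at h
    rw [hb, hu]
    exact h
  have hm1 : (∑ v ∈ P, n v) = (x : ℤ) * N := by
    rw [sum_congr rfl fun v _ => hn v]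
    exact_mod_cast h1
  have hm2 : (∑ v ∈ P, n v ^ 2) ≤ (x : ℤ) * N + x * x * N := by
    rw [sum_congr rfl fun v _ => by rw [hn v]]
    exact_mod_cast h2
  obtain ⟨t, ht⟩ : ∃ t, t = ∑ v ∈ P.filter (fun v => tU p a f v), n v := ⟨_, rfl⟩
  obtain ⟨D, hD⟩ : ∃ D, D = ∑ v ∈ P.filter (fun v => tB p a f v), (n v - x) := ⟨_, rfl⟩
  have hDu : D = x * u - t := by
    have h := hsplit fun v => n v - x
    rw [sum_sub_distrib, hm1, sum_const, nsmul_eq_mul, hc, ← hD] at h
    have e1 : ∑ v ∈ P.filter (fun v => tU p a f v), (n v - x) = t - x * u := by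
      rw [sum_sub_distrib, ← ht, sum_const, nsmul_eq_mul, ← hu]
      ring
    have e2 : ∑ v ∈ P.filter (fun v => tF p a f v), (n v - x) = 0 := by
      refine sum_eq_zero fun v hv => ?_
      rw [hF1 v (mem_filter.1 hv).2, sub_self]
    rw [e1, e2] at h
    linarith
  -- sizes
  have hBn : ∀ v ∈ P.filter (fun v => tB p a f v), (x : ℤ) + p ≤ n v := by
    intro v hv
    obtain ⟨hv1, hv2⟩ := mem_filter.1 hv
    have h5 := E.dvd hv1
    rw [tB, ← hx] at hv2
    obtain ⟨y, hy⟩ := hpx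
    obtain ⟨z, hz⟩ := h5
    rw [hn]
    have h6 : x + p ≤ (sl p f v).card := by
      rw [hy, hz] at hv2 ⊢
      have h7 : y < z := Nat.lt_of_mul_lt_mul_left hv2
      calc p * y + p = p * (y + 1) := by ring
        _ ≤ p * z := Nat.mul_le_mul_left _ h7
    exact_mod_cast h6
  have hpb : (p : ℤ) * b ≤ D := by
    rw [hD, hb]
    have h5 : ∑ _v ∈ P.filter (fun v => tB p a f v), (p : ℤ) ≤
        ∑ v ∈ P.filter (fun v => tB p a f v), (n v - x) :=
      sum_le_sum fun v hv => by have := hBn v hv; linarith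
    rw [sum_const, nsmul_eq_mul] at h5
    linarith
  have hUn : ∀ v ∈ P.filter (fun v => tU p a f v), n v * (x - n v) ≤ (x - p) * n v := by
    intro v hv
    obtain ⟨hv1, hv2⟩ := mem_filter.1 hv
    have h5 := E.dvd hv1
    rcases Nat.eq_zero_or_pos (sl p f v).card with h6 | h6
    · rw [hn, h6]
      simp
    · have h7 := Nat.le_of_dvd h6 h5
      have h8 : (p : ℤ) ≤ n v := by rw [hn]; exact_mod_cast h7
      have hp0 : (0 : ℤ) < p := by exact_mod_cast hpp.pos
      nlinarith
  have hmain : ((x : ℤ) + p) * D - (x - p) * t ≤ x * N := by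
    have h5 := hsplit fun v => n v * (n v - x)
    have e0 : ∑ v ∈ P, n v * (n v - x) = ∑ v ∈ P, n v ^ 2 - x * ∑ v ∈ P, n v := by
      rw [mul_sum, ← sum_sub_distrib]
      refine sum_congr rfl fun v _ => ?_
      ring
    have e1 : ((x : ℤ) + p) * D ≤ ∑ v ∈ P.filter (fun v => tB p a f v), n v * (n v - x) := by
      rw [hD, mul_sum]
      refine sum_le_sum fun v hv => ?_
      have h6 := hBn v hv
      have hp0 : (0 : ℤ) < p := by exact_mod_cast hpp.pos
      exact mul_le_mul_of_nonneg_right h6 (by linarith)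
    have e2 : - ((x - p) * t) ≤ ∑ v ∈ P.filter (fun v => tU p a f v), n v * (n v - x) := by
      rw [ht, mul_sum, ← sum_neg_distrib]
      refine sum_le_sum fun v hv => ?_
      have h6 := hUn v hv
      linarith
    have e3 : ∑ v ∈ P.filter (fun v => tF p a f v), n v * (n v - x) = 0 := by
      refine sum_eq_zero fun v hv => ?_
      rw [hF1 v (mem_filter.1 hv).2, sub_self, mul_zero]
    rw [e0, hm1, e3] at h5
    have e4 : (x : ℤ) * (x * N) = x * x * N := by ring
    rw [e4] at h5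
    linarith
  have hcoll : ((p : ℤ) - 1) * t ≤ N := by
    rw [ht, sum_congr rfl fun v _ => hn v]
    have h5 : (((p - 1 : ℕ) : ℤ)) = (p : ℤ) - 1 := by
      rw [Nat.cast_sub hpp.one_lt.le]; simp
    rw [← h5]
    exact_mod_cast h3
  have hglob : ((x : ℤ) - 1) * N ≤ ((p : ℤ) - 1) * x * b + (x - 1) * u := by
    have h5 : (((p - 1 : ℕ) : ℤ)) = (p : ℤ) - 1 := by
      rw [Nat.cast_sub hpp.one_lt.le]; simp
    have h6 : (((x - 1 : ℕ) : ℤ)) = (x : ℤ) - 1 := by
      rw [Nat.cast_sub hx0]; simp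
    rw [← h5, ← h6, hb, hu]
    exact_mod_cast h4
  exact fin_arith (p := p) (x := x) (N := N) (by exact_mod_cast hp3) (by exact_mod_cast hxp)
    (by exact_mod_cast hN0) hpb hDu hmain hcoll hglob

end Pool.Agent.H38.RX
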