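import Pool.Agent.H38.RX.Defs

/-!
# RX Push2: fibres of `a` functionals

`push_all`: as in Pool/Agent/H16/RB/Push.lean (`hkill`, private `push_sum_eq`), but with `deg_of_kills` for `b = 0`, `n = a * (p - 1)`: all first differences
of `z ↦ fb p y S l z` vanish modulo `p`, so it is constant.
`push_zero`: `[l_i = c_i] = 1 - (l_i - c_i) ^ (p - 1)`.  By induction on the list `M` of indicator factors: `∑ x ∈ S, ∏ (M) * ∏ (L) = 0` whenever
`L.length + M.length * (p - 1) < n`; here `M.length = a`, `L = []`, `n = a * (p - 1) + 1`.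
-/

set_option autoImplicit false

namespace Pool.Agent.H38.RX

open Finset Pool.Agent.H16.RB Pool.Agent.H88.Pl
open scoped Classical

private lemma fb_eq {p a : ℕ} {X G : Type*} [AddCommGroup G] (y : X → G) (S : Finset X)
    (l : Fin a → (G →+ ZMod p)) (z : Fin a → ZMod p) :
    fb p y S l z = (S.filter fun x => (fun i => l i (y x)) = z).card := by
  unfold fb
  congr 1
  apply Finset.filter_congr
  intro x _
  exact funext_iff.symm

private lemma fb_sum_mul {p a : ℕ} [Fact p.Prime] {X G : Type*} [AddCommGroup G] (y : X → G)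
    (S : Finset X) (l : Fin a → (G →+ ZMod p)) (φ : (Fin a → ZMod p) → ZMod p) :
    ∑ z, ((fb p y S l z : ℕ) : ZMod p) * φ z = ∑ x ∈ S, φ (fun i => l i (y x)) := by
  rw [← Finset.sum_fiberwise S (fun x => (fun i => l i (y x))) (fun x => φ (fun i => l i (y x)))]
  refine Finset.sum_congr rfl fun z _ => ?_
  rw [fb_eq y S l z]
  have h : ∑ x ∈ S.filter (fun x => (fun i => l i (y x)) = z), φ (fun i => l i (y x)) =
      ∑ _x ∈ S.filter (fun x => (fun i => l i (y x)) = z), φ z := by
    refine Finset.sum_congr rfl fun x hx => ?_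
    rw [(Finset.mem_filter.mp hx).2]
  rw [h, Finset.sum_const, nsmul_eq_mul]

theorem push_all {p a : ℕ} [Fact p.Prime] {X G : Type*} [AddCommGroup G] (y : X → G)
    (S : Finset X) (hK : Kills p y S (a * (p - 1))) (l : Fin a → (G →+ ZMod p))
    (c c' : Fin a → ZMod p) : (fb p y S l c : ZMod p) = (fb p y S l c' : ZMod p) := by
  have hkill : ∀ L : List (((Fin a → ZMod p) →+ ZMod p) × ZMod p), L.length < a * (p - 1) →
      ∑ z, ((fb p y S l z : ℕ) : ZMod p) * (L.map fun l => l.1 z - l.2).prod = 0 := by
    intro L hL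
    rw [fb_sum_mul y S l (fun z => (L.map fun l => l.1 z - l.2).prod)]
    have h := hK (L.map fun m => (m.1.comp (AddMonoidHom.mk' (fun v : G => (fun i => l i v))
      (fun a b => by funext i; simp)), m.2)) (by rw [List.length_map]; exact hL)
    rw [← h]
    refine Finset.sum_congr rfl fun x _ => ?_
    rw [List.map_map]
    rfl
  have h := deg_of_kills (p := p) (s := a) (n := a * (p - 1)) (b := 0) (Nat.add_zero _)
    (fun z => ((fb p y S l z : ℕ) : ZMod p)) hkill [c - c'] rfl c'
  simp only [H16.RB.diffs, add_sub_cancel] at h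
  exact sub_eq_zero.mp h

private lemma kills_ind {p n : ℕ} {X G : Type*} [AddCommGroup G] (y : X → G)
    (S : Finset X) (hK : Kills p y S n) (M : List ((G →+ ZMod p) × ZMod p)) :
    ∀ L : List ((G →+ ZMod p) × ZMod p), L.length + M.length * (p - 1) < n →
      ∑ x ∈ S, (M.map fun l => 1 - (l.1 (y x) - l.2) ^ (p - 1)).prod *
        (L.map fun l => l.1 (y x) - l.2).prod = 0 := by
  induction M with
  | nil =>
    intro L hL
    have h := hK L (by simpa using hL)
    simpa using h
  | cons m M ih =>
    intro L hL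
    have hlen : (m :: M).length * (p - 1) = M.length * (p - 1) + (p - 1) := by
      rw [List.length_cons, Nat.add_mul, one_mul]
    have h1 := ih L (by omega)
    have h2 := ih (List.replicate (p - 1) m ++ L) (by
      rw [List.length_append, List.length_replicate]; omega)
    have h3 : ∑ x ∈ S, ((m :: M).map fun l => 1 - (l.1 (y x) - l.2) ^ (p - 1)).prod *
        (L.map fun l => l.1 (y x) - l.2).prod =
        ∑ x ∈ S, (M.map fun l => 1 - (l.1 (y x) - l.2) ^ (p - 1)).prod *
          (L.map fun l => l.1 (y x) - l.2).prod -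
        ∑ x ∈ S, (M.map fun l => 1 - (l.1 (y x) - l.2) ^ (p - 1)).prod *
          ((List.replicate (p - 1) m ++ L).map fun l => l.1 (y x) - l.2).prod := by
      rw [← Finset.sum_sub_distrib]
      refine Finset.sum_congr rfl fun x _ => ?_
      rw [List.map_cons, List.prod_cons, List.map_append, List.prod_append, List.map_replicate,
        List.prod_replicate]
      ring
    rw [h3, h1, h2, sub_zero]

theorem push_zero {p a : ℕ} [Fact p.Prime] {X G : Type*} [AddCommGroup G] (y : X → G)
    (S : Finset X) (hK : Kills p y S (a * (p - 1) + 1)) (l : Fin a → (G →+ ZMod p))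
    (c : Fin a → ZMod p) : p ∣ fb p y S l c := by
  have hp : p.Prime := Fact.out
  have hp2 : 2 ≤ p := hp.two_le
  rw [← ZMod.natCast_eq_zero_iff]
  have h := kills_ind y S hK (List.ofFn fun i => (l i, c i)) [] (by
    rw [List.length_ofFn, List.length_nil]; omega)
  rw [← h]
  unfold fb
  rw [Finset.card_filter, Nat.cast_sum]
  refine Finset.sum_congr rfl fun x _ => ?_
  rw [List.map_ofFn, List.prod_ofFn, List.map_nil, List.prod_nil, mul_one]
  by_cases hx : ∀ i, l i (y x) = c i
  · rw [if_pos hx, Nat.cast_one]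
    symm
    refine Finset.prod_eq_one fun i _ => ?_
    simp only [Function.comp_apply]
    rw [hx i, sub_self, zero_pow (by omega), sub_zero]
  · rw [if_neg hx, Nat.cast_zero]
    symm
    push Not at hx
    obtain ⟨i, hi⟩ := hx
    refine Finset.prod_eq_zero (Finset.mem_univ i) ?_
    simp only [Function.comp_apply]
    rw [ZMod.pow_card_sub_one_eq_one (sub_ne_zero.mpr hi), sub_self]

/-- the fibres partition `S` -/
theorem fb_sum {p a : ℕ} [Fact p.Prime] {X G : Type*} [AddCommGroup G] (y : X → G)
    (S : Finset X) (l : Fin a → (G →+ ZMod p)) : ∑ c, fb p y S l c = S.card := by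
  have h := Finset.card_eq_sum_card_fiberwise (s := S) (t := (Finset.univ : Finset (Fin a → ZMod p)))
    (f := fun x => (fun i => l i (y x))) (fun x _ => Finset.mem_coe.mpr (Finset.mem_univ _))
  rw [h]
  refine Finset.sum_congr rfl fun z _ => ?_
  rw [fb_eq y S l z]

/-- at most `p ^ a` points and a fibre of size prime to `p`: all fibres are single points -/
theorem fb_one {p a : ℕ} [Fact p.Prime] {X G : Type*} [AddCommGroup G] (y : X → G)
    (S : Finset X) (hK : Kills p y S (a * (p - 1))) (hS : S.card ≤ p ^ a)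
    (l : Fin a → (G →+ ZMod p)) (c : Fin a → ZMod p) (h : ¬ p ∣ fb p y S l c) :
    S.card = p ^ a ∧ ∀ c', fb p y S l c' = 1 := by
  have hcardV : Fintype.card (Fin a → ZMod p) = p ^ a := by
    rw [Fintype.card_fun, ZMod.card, Fintype.card_fin]
  have hsum := fb_sum y S l
  have hpos : ∀ z : Fin a → ZMod p, 1 ≤ fb p y S l z := by
    intro z
    rcases Nat.eq_zero_or_pos (fb p y S l z) with h0 | h0
    · exfalso
      apply h
      rw [← ZMod.natCast_eq_zero_iff, push_all y S hK l c z, h0, Nat.cast_zero]
    · exact h0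
  have hle : p ^ a ≤ S.card := by
    rw [← hsum, ← hcardV]
    calc Fintype.card (Fin a → ZMod p) = ∑ _z : Fin a → ZMod p, 1 := by simp
      _ ≤ _ := Finset.sum_le_sum fun z _ => hpos z
  have heq : S.card = p ^ a := le_antisymm hS hle
  refine ⟨heq, fun z => ?_⟩
  have h1 : ∑ _z : Fin a → ZMod p, 1 = ∑ z : Fin a → ZMod p, fb p y S l z := by
    rw [hsum, heq, ← hcardV]; simp
  exact ((Finset.sum_eq_sum_iff_of_le fun z _ => hpos z).mp h1 z (Finset.mem_univ z)).symm

end Pool.Agent.H38.RX
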