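import Pool.Agent.H38.RX.KillsT
import Pool.Agent.H38.RX.Flat

/-!
# RX Types: big, flat and other slices; lines

`Ext.dvd`: the empty list in `Ext.kills`.  `Ext.null`: if some fibre is prime to `p`, `fb_one` gives `p ^ a` points and all fibres single, so `tF`.
`Ext.line`: the set in `Ext.line_kills` is the disjoint union of the slices over `v + i • s`, `i < p` (`i • s ≠ j • s` for `i ≠ j`), so by `push_zero`
`p ∣ ∑ i < p, fb p (gr f) (sl p f (v + i • s)) l 0`.  No slice is big, so each term is `1` (`tF`, `fb_one`) or divisible by `p`; with `k` the number of the terms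
not divisible by `p`: `p ∣ k`, so `k = 0` or `k = p`.  For the `l` of `tF v` the term `i = 0` is `1`, so all are; hence all slices are flat, and for every `l` the terms `i = 0` and
`i = 1` are both divisible by `p` or both not.
-/

set_option autoImplicit false

namespace Pool.Agent.H38.RX

open Finset Pool.Agent.H16.RB Pool.Agent.H88.Pl
open scoped Classical

variable {p r κ a : ℕ} [Fact p.Prime] {H K : Type*} [AddCommGroup H] [AddCommGroup K] [Fintype H]
  [Fintype K] {f : H → K}

theorem PP_add {v s : H × K} (hv : v ∈ PP p H K) (hs : s ∈ PP p H K) (i : ℕ) :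
    v + i • s ∈ PP p H K := by
  unfold PP at hv hs ⊢
  rw [Finset.mem_filter] at hv hs ⊢
  obtain ⟨_, g, rfl⟩ := hv
  obtain ⟨_, g', rfl⟩ := hs
  refine ⟨Finset.mem_univ _, g + i • g', ?_⟩
  rw [smul_add, smul_comm]

theorem Ext.dvd (E : Ext p r κ a f) {v : H × K} (hv : v ∈ PP p H K) : p ∣ (sl p f v).card := by
  have hp : p.Prime := Fact.out
  have h2 : 2 ≤ p := hp.two_le
  have h3 : 0 < a * (p - 1) := Nat.mul_pos E.ha (by omega)
  have h := E.kills hv [] (by simpa using h3)
  simp only [List.map_nil, List.prod_nil, Finset.sum_const, nsmul_eq_mul, mul_one] at h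
  exact (ZMod.natCast_eq_zero_iff _ _).1 h

theorem Ext.null (E : Ext p r κ a f) {v : H × K} (hv : v ∈ PP p H K) (h : tU p a f v)
    (l : Fin a → (H × K →+ ZMod p)) (c : Fin a → ZMod p) : p ∣ fb p (gr f) (sl p f v) l c := by
  have hp : p.Prime := Fact.out
  by_contra hc
  have h1 : (sl p f v).card ≤ p ^ a := not_lt.1 h.1
  obtain ⟨h2, h3⟩ := fb_one (gr f) (sl p f v) (E.kills hv) h1 l c hc
  refine h.2 ⟨h2, l, ?_⟩
  rw [h3 0]
  exact fun h4 => hp.one_lt.ne' (Nat.dvd_one.1 h4)

private theorem smul_ne {s : H × K} (hs : p • s = 0) (h0 : s ≠ 0) {i j : ℕ} (hi : i < p)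
    (hj : j < p) (hij : i • s = j • s) : i = j := by
  have h1 : addOrderOf s = p := addOrderOf_eq_prime hs h0
  refine nsmul_injOn_Iio_addOrderOf ?_ ?_ hij
  · rw [h1]
    exact hi
  · rw [h1]
    exact hj

private theorem fb_line {v s : H × K} (hs : p • s = 0) (h0 : s ≠ 0)
    (l : Fin a → (H × K →+ ZMod p)) (c : Fin a → ZMod p) :
    fb p (gr f) (univ.filter fun x => ∃ i < p, p • gr f x = v + i • s) l c =
      ∑ i ∈ Finset.range p, fb p (gr f) (sl p f (v + i • s)) l c := by
  unfold fb
  rw [← Finset.card_biUnion]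
  · congr 1
    ext x
    simp only [Finset.mem_filter, Finset.mem_univ, true_and, Finset.mem_biUnion,
      Finset.mem_range, sl]
    constructor
    · rintro ⟨⟨i, hi, h1⟩, h2⟩
      exact ⟨i, hi, h1, h2⟩
    · rintro ⟨i, hi, h1, h2⟩
      exact ⟨⟨i, hi, h1⟩, h2⟩
  · intro i hi j hj hij
    refine Finset.disjoint_left.2 fun x hx hx' => ?_
    simp only [Finset.mem_filter, Finset.mem_univ, true_and, sl] at hx hx'
    apply hij
    refine smul_ne hs h0 (Finset.mem_range.1 (Finset.mem_coe.1 hi))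
      (Finset.mem_range.1 (Finset.mem_coe.1 hj)) ?_
    have h1 := hx.1.symm.trans hx'.1
    exact add_left_cancel h1

private theorem dich (t : ℕ → ℕ) (h1 : ∀ i < p, p ∣ t i ∨ t i = 1)
    (h2 : p ∣ ∑ i ∈ Finset.range p, t i) :
    (∀ i < p, p ∣ t i) ∨ (∀ i < p, ¬ p ∣ t i) := by
  have hp : p.Prime := Fact.out
  have h3 : ((∑ i ∈ Finset.range p, t i : ℕ) : ZMod p) =
      (((Finset.range p).filter fun i => ¬ p ∣ t i).card : ZMod p) := by
    rw [Finset.card_filter]
    push_cast
    refine Finset.sum_congr rfl fun i hi => ?_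
    rcases h1 i (Finset.mem_range.1 hi) with h | h
    · rw [if_neg (not_not.2 h)]
      exact (ZMod.natCast_eq_zero_iff _ _).2 h
    · rw [h, if_pos]
      · simp
      · exact fun h4 => hp.one_lt.ne' (Nat.dvd_one.1 h4)
  rw [(ZMod.natCast_eq_zero_iff _ _).2 h2] at h3
  have h4 : p ∣ ((Finset.range p).filter fun i => ¬ p ∣ t i).card :=
    (ZMod.natCast_eq_zero_iff _ _).1 h3.symm
  have h5 : ((Finset.range p).filter fun i => ¬ p ∣ t i).card ≤ p := by
    have := Finset.card_filter_le (Finset.range p) (fun i => ¬ p ∣ t i)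
    rwa [Finset.card_range] at this
  rcases Nat.eq_zero_or_pos ((Finset.range p).filter fun i => ¬ p ∣ t i).card with h6 | h6
  · left
    intro i hi
    rw [Finset.card_eq_zero, Finset.filter_eq_empty_iff] at h6
    exact not_not.1 (h6 (Finset.mem_range.2 hi))
  · right
    have h7 : ((Finset.range p).filter fun i => ¬ p ∣ t i).card = (Finset.range p).card := by
      rw [Finset.card_range]
      exact le_antisymm h5 (Nat.le_of_dvd h6 h4)
    have h8 := Finset.eq_of_subset_of_card_le (Finset.filter_subset _ _) h7.ge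
    intro i hi
    have h9 : i ∈ (Finset.range p).filter fun i => ¬ p ∣ t i := by
      rw [h8]
      exact Finset.mem_range.2 hi
    exact (Finset.mem_filter.1 h9).2

theorem Ext.line (E : Ext p r κ a f) {v s : H × K} (hv : v ∈ PP p H K) (hF : tF p a f v)
    (hs : s ∈ Sc p H K) (h0 : s ≠ 0) (hB : ∀ i < p, ¬ tB p a f (v + i • s)) :
    tF p a f (v + s) ∧ same p a f v (v + s) := by
  have hp : p.Prime := Fact.out
  have hs1 : p • s = 0 ∧ s ∈ PP p H K := by
    unfold Sc at hs
    rw [Finset.mem_filter] at hs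
    unfold PP
    rw [Finset.mem_filter]
    exact ⟨hs.2.1, Finset.mem_univ _, hs.2.2⟩
  have hone : ∀ (l : Fin a → (H × K →+ ZMod p)) (i : ℕ), i < p →
      ¬ p ∣ fb p (gr f) (sl p f (v + i • s)) l 0 →
      (sl p f (v + i • s)).card = p ^ a ∧ fb p (gr f) (sl p f (v + i • s)) l 0 = 1 := by
    intro l i hi h
    obtain ⟨h2, h3⟩ := fb_one (gr f) (sl p f (v + i • s)) (E.kills (PP_add hv hs1.2 i))
      (not_lt.1 (hB i hi)) l 0 h
    exact ⟨h2, h3 0⟩
  have hd : ∀ l : Fin a → (H × K →+ ZMod p),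
      (∀ i < p, p ∣ fb p (gr f) (sl p f (v + i • s)) l 0) ∨
      (∀ i < p, ¬ p ∣ fb p (gr f) (sl p f (v + i • s)) l 0) := by
    intro l
    refine dich (fun i => fb p (gr f) (sl p f (v + i • s)) l 0) (fun i hi => ?_) ?_
    · by_cases h : p ∣ fb p (gr f) (sl p f (v + i • s)) l 0
      · exact Or.inl h
      · exact Or.inr (hone l i hi h).2
    · have h := push_zero (gr f) _ (E.line_kills hv hs h0) l 0
      rw [fb_line hs1.1 h0] at h
      exact h
  have e0 : v + 0 • s = v := by rw [zero_smul, add_zero]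
  have e1 : v + 1 • s = v + s := by rw [one_smul]
  refine ⟨?_, ?_⟩
  · obtain ⟨_, l, hl⟩ := hF
    rcases hd l with h | h
    · exfalso
      apply hl
      have := h 0 hp.pos
      rwa [e0] at this
    · have h1 := h 1 hp.one_lt
      obtain ⟨h2, _⟩ := hone l 1 hp.one_lt h1
      rw [e1] at h1 h2
      exact ⟨h2, l, h1⟩
  · intro l
    rcases hd l with h | h
    · have h1 := h 0 hp.pos
      have h2 := h 1 hp.one_lt
      rw [e0] at h1
      rw [e1] at h2
      exact ⟨fun _ => h1, fun _ => h2⟩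
    · have h1 := h 0 hp.pos
      have h2 := h 1 hp.one_lt
      rw [e0] at h1
      rw [e1] at h2
      exact ⟨fun h3 => absurd h3 h2, fun h3 => absurd h3 h1⟩

end Pool.Agent.H38.RX
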